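import Pool.Agent.W_MP_fd63cb_lc.Main

/-!
The main theorem in abstract form.
-/

set_option autoImplicit false

namespace Pool.Agent.W_MP_fd63cb_lc

open Finset
open scoped Classical

lemma geom_half (M : ℕ) : ∑ a ∈ range M, (1 / 2 : ℝ) ^ (a + 2) ≤ 1 / 2 := by
  have : ∑ a ∈ range M, (1 / 2 : ℝ) ^ (a + 2) = 1 / 2 - (1 / 2 : ℝ) ^ (M + 1) := by
    induction M with
    | zero => norm_num
    | succ M ih => rw [Finset.sum_range_succ, ih]; ring
  rw [this]
  have : (0 : ℝ) ≤ (1 / 2 : ℝ) ^ (M + 1) := by positivity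
  linarith

lemma geom_half_finset (T : Finset ℕ) : ∑ a ∈ T, (1 / 2 : ℝ) ^ (a + 2) ≤ 1 / 2 := by
  refine le_trans (Finset.sum_le_sum_of_subset_of_nonneg (t := range (T.sup id + 1)) ?_ ?_)
    (geom_half _)
  · intro a ha
    have : a ≤ T.sup id := Finset.le_sup (f := id) ha
    exact Finset.mem_range.2 (by omega)
  · intro i _ _; positivity

lemma rmass_nonneg (l : List (ℕ × ℕ)) (a : ℕ) : 0 ≤ rmass l a := by
  unfold rmass
  refine List.sum_nonneg fun x hx => ?_
  obtain ⟨p, _, rfl⟩ := List.mem_map.1 hx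
  show 0 ≤ if p.1 = a then (1 / 2 : ℝ) ^ p.2 else 0
  split_ifs <;> positivity

lemma computable_prof {N : ℕ} {A : Fin N → ℕ → ℕ} {F : ℕ → ℕ → ℕ}
    (hA : ∀ i, Computable (A i)) (hF : Computable₂ F) : Computable (prof A F) := by
  have hu1 : Computable fun s : ℕ => s.unpair.1 := Computable.fst.comp Computable.unpair
  have hu2 : Computable fun s : ℕ => s.unpair.2 := Computable.snd.comp Computable.unpair
  exact Computable.list_ofFn
    (f := fun (i : Fin N) (s : ℕ) => (A i s.unpair.1, F (A i s.unpair.1) s.unpair.2))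
    fun i => Computable.pair ((hA i).comp hu1) (hF.comp ((hA i).comp hu1) hu2)

/-- The main theorem in abstract form. -/
theorem abstract_main (K : ℕ → ℕ)
    (hK1 : ∃ f : ℕ → ℕ → ℕ, Computable₂ f ∧ ∀ x, (∀ t, K x ≤ f x t) ∧ ∃ t, f x t = K x)
    (hK2 : Summable (fun x : ℕ => ((1:ℝ)/2) ^ K x)) (hK3 : (∑' x : ℕ, ((1:ℝ)/2) ^ K x) ≤ 1)
    (hK4 : ∀ K' : ℕ → ℕ,
      ((∃ f : ℕ → ℕ → ℕ, Computable₂ f ∧ ∀ x, (∀ t, K' x ≤ f x t) ∧ ∃ t, f x t = K' x) ∧
        Summable (fun x : ℕ => ((1:ℝ)/2) ^ K' x) ∧ (∑' x : ℕ, ((1:ℝ)/2) ^ K' x) ≤ 1) →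
      ∃ c : ℕ, ∀ x, K x ≤ K' x + c)
    {N : ℕ} (A : Fin N → ℕ → ℕ) (hA : ∀ i, Computable (A i)) (lam : Fin N → ℝ)
    (hvalid : ∀ (n : ℕ) (p : Fin n → ℝ) (x : Fin n → ℕ), (∀ ω, 0 ≤ p ω) → ∑ ω, p ω = 1 →
      0 ≤ ∑ i, lam i * ent p (Setoid.ker fun ω => A i (x ω)))
    (viol : ℕ → List ℕ → Bool) (hviol : Computable₂ viol)
    (L : ℕ → ℝ) (hL0 : ∀ c, 0 < L c)
    (hsound : ∀ c (h : Fin N → ℕ), viol c (List.ofFn h) = true → ∑ i, lam i * h i ≤ -L c)
    (Λ : ℝ) (hΛ : ∑ i, |lam i| ≤ Λ)
    (hL : ∀ c, N * Real.exp (1 + Real.log 2 - L c * Real.log 2 / Λ) ≤ (1 / 2 : ℝ) ^ (3 * c + 2)) :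
    ∃ c, ∀ z, viol c (List.ofFn fun i => K (A i z)) = false := by
  obtain ⟨f, hf, hfK⟩ := hK1
  set F := mono f with hFdef
  have hFc : Computable₂ F := computable_mono hf
  have hF : ∀ x t, K x ≤ F x t := fun x t => le_mono (hfK x).1 t
  have hFlim : ∀ x, ∃ t₀, ∀ t, t₀ ≤ t → F x t = K x := by
    intro x
    obtain ⟨t₀, ht₀⟩ := (hfK x).2
    exact ⟨t₀, fun t ht => le_antisymm ((mono_le t ht).trans ht₀.le) (hF x t)⟩
  have hKfin : ∀ T : Finset ℕ, ∑ c ∈ T, (1 / 2 : ℝ) ^ (K c) ≤ 1 := fun T =>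
    (hK2.sum_le_tsum T fun _ _ => by positivity).trans hK3
  have hbound : ∀ c n, ∑ s ∈ range n, wt A F viol c s
      ≤ Real.exp (1 + Real.log 2 - L c * Real.log 2 / Λ) := fun c n =>
    total_bound A F viol K hKfin hF lam hvalid L hL0 hsound Λ hΛ c n
  have hNb : ∀ c n, (N : ℝ) * ∑ s ∈ range n, wt A F viol c s ≤ (1 / 2 : ℝ) ^ (3 * c + 2) :=
    fun c n => (mul_le_mul_of_nonneg_left (hbound c n) (Nat.cast_nonneg N)).trans (hL c)
  have hPc : Computable (prof A F) := computable_prof hA hFc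
  -- the length function
  let g : ℕ → ℕ → ℕ := approx viol (prof A F)
  have hg : Computable₂ g := computable_approx hviol hPc
  let K' : ℕ → ℕ := fun a => sInf (Set.range (g a))
  have hK'mem : ∀ a, ∃ u, g a u = K' a := fun a => Nat.sInf_mem (Set.range_nonempty (g a))
  have hK'le : ∀ a u, K' a ≤ g a u := fun a u => Nat.sInf_le ⟨u, rfl⟩
  have hmono : ∀ c a s s', s ≤ s' → rmass (st A F viol c s) a ≤ rmass (st A F viol c s') a := by
    intro c a s s' h
    rw [rmass_st, rmass_st]
    exact Finset.sum_le_sum fun i _ => Q_mono (wt_nonneg A F viol c) _ h _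
  have hpt : ∀ a, ∃ c s, (1 / 2 : ℝ) ^ (K' a) ≤ (1 / 2 : ℝ) ^ (a + 2) +
      2 ^ (2 * c) * rmass (st A F viol c s) a := by
    intro a
    obtain ⟨u, hu⟩ := hK'mem a
    refine ⟨u.unpair.2.unpair.1, u.unpair.2.unpair.2, ?_⟩
    set k := u.unpair.1
    set c := u.unpair.2.unpair.1
    set s := u.unpair.2.unpair.2
    have hgu : g a u = approxAux k c s a (st A F viol c s) := rfl
    rw [← hu, hgu]
    unfold approxAux
    have hms := mass_eq (st A F viol c s) a s (st_le A F viol c s)
    have hr0 := rmass_nonneg (st A F viol c s) a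
    split_ifs with hcond
    · have h2 : ((2 ^ s : ℕ) : ℝ) ≤ ((2 ^ (k + 2 * c) * mass (st A F viol c s) a s : ℕ) : ℝ) := by
        exact_mod_cast hcond
      push_cast at h2
      rw [hms] at h2
      have h3 : (0 : ℝ) < 2 ^ s := by positivity
      have h4 : (2 : ℝ) ^ s * 1 ≤ 2 ^ s * (2 ^ (k + 2 * c) * rmass (st A F viol c s) a) := by
        linarith
      have h5 := le_of_mul_le_mul_left h4 h3
      have h6 : (1 / 2 : ℝ) ^ k ≤ 2 ^ (2 * c) * rmass (st A F viol c s) a := by
        rw [one_div, inv_pow, ← one_div, div_le_iff₀ (by positivity)]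
        rw [pow_add] at h5
        linarith
      have h7 : (0 : ℝ) ≤ (1 / 2 : ℝ) ^ (a + 2) := by positivity
      linarith
    · have : (0 : ℝ) ≤ 2 ^ (2 * c) * rmass (st A F viol c s) a := by positivity
      linarith
  choose cc ss hcs using hpt
  have hkraft : ∀ T : Finset ℕ, ∑ a ∈ T, (1 / 2 : ℝ) ^ (K' a) ≤ 1 := by
    intro T
    set C := T.sup cc
    set S := T.sup ss
    have h1 : ∀ a ∈ T, (1 / 2 : ℝ) ^ (K' a) ≤ (1 / 2 : ℝ) ^ (a + 2) +
        ∑ c ∈ range (C + 1), 2 ^ (2 * c) * rmass (st A F viol c S) a := by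
      intro a ha
      refine (hcs a).trans (add_le_add le_rfl ?_)
      have hc : cc a ∈ range (C + 1) := by
        have : cc a ≤ C := Finset.le_sup ha
        exact Finset.mem_range.2 (by omega)
      have hs : ss a ≤ S := Finset.le_sup ha
      calc 2 ^ (2 * cc a) * rmass (st A F viol (cc a) (ss a)) a
          ≤ 2 ^ (2 * cc a) * rmass (st A F viol (cc a) S) a :=
            mul_le_mul_of_nonneg_left (hmono _ _ _ _ hs) (by positivity)
        _ ≤ ∑ c ∈ range (C + 1), 2 ^ (2 * c) * rmass (st A F viol c S) a :=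
            Finset.single_le_sum
              (f := fun c => (2 : ℝ) ^ (2 * c) * rmass (st A F viol c S) a)
              (fun c _ => mul_nonneg (by positivity) (rmass_nonneg _ _)) hc
    have h2 : ∑ a ∈ T, ∑ c ∈ range (C + 1), (2 : ℝ) ^ (2 * c) * rmass (st A F viol c S) a
        ≤ 1 / 2 := by
      rw [Finset.sum_comm]
      calc ∑ c ∈ range (C + 1), ∑ a ∈ T, (2 : ℝ) ^ (2 * c) * rmass (st A F viol c S) a
          ≤ ∑ c ∈ range (C + 1), (1 / 2 : ℝ) ^ (c + 2) := by
            refine Finset.sum_le_sum fun c _ => ?_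
            rw [← Finset.mul_sum]
            have h3 := (sum_rmass A F viol c S T).trans (hNb c S)
            calc (2 : ℝ) ^ (2 * c) * ∑ a ∈ T, rmass (st A F viol c S) a
                ≤ 2 ^ (2 * c) * (1 / 2 : ℝ) ^ (3 * c + 2) :=
                  mul_le_mul_of_nonneg_left h3 (by positivity)
              _ = (1 / 2 : ℝ) ^ (c + 2) := by
                  have : 3 * c + 2 = 2 * c + (c + 2) := by ring
                  rw [this, pow_add, ← mul_assoc, ← mul_pow]
                  norm_num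
        _ ≤ 1 / 2 := geom_half _
    calc ∑ a ∈ T, (1 / 2 : ℝ) ^ (K' a)
        ≤ ∑ a ∈ T, ((1 / 2 : ℝ) ^ (a + 2) +
          ∑ c ∈ range (C + 1), 2 ^ (2 * c) * rmass (st A F viol c S) a) :=
          Finset.sum_le_sum h1
      _ ≤ 1 / 2 + 1 / 2 := by
          rw [Finset.sum_add_distrib]
          exact add_le_add (geom_half_finset T) h2
      _ = 1 := by norm_num
  have hsummable : Summable (fun x : ℕ => ((1:ℝ)/2) ^ K' x) :=
    summable_of_sum_le (fun _ => by positivity) hkraft
  have htsum : (∑' x : ℕ, ((1:ℝ)/2) ^ K' x) ≤ 1 :=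
    Real.tsum_le_of_sum_le (fun _ => by positivity) hkraft
  obtain ⟨c₁, hc₁⟩ := hK4 K' ⟨⟨g, hg, fun x => ⟨hK'le x, hK'mem x⟩⟩, hsummable, htsum⟩
  -- requests with parameter `c₁ + 1` are honoured
  refine ⟨c₁ + 1, ?_⟩
  set c := c₁ + 1 with hc
  have hmassle : ∀ s a, mass (st A F viol c s) a s * 2 ^ (2 * c) ≤ 2 ^ s := by
    intro s a
    have h1 : rmass (st A F viol c s) a ≤ (1 / 2 : ℝ) ^ (3 * c + 2) := by
      have := (sum_rmass A F viol c s {a}).trans (hNb c s)
      simpa using this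
    have hms := mass_eq (st A F viol c s) a s (st_le A F viol c s)
    have h2 : ((mass (st A F viol c s) a s * 2 ^ (2 * c) : ℕ) : ℝ) ≤ ((2 ^ s : ℕ) : ℝ) := by
      push_cast
      rw [hms]
      have h3 : rmass (st A F viol c s) a * 2 ^ (2 * c) ≤ 1 := by
        calc rmass (st A F viol c s) a * 2 ^ (2 * c)
            ≤ (1 / 2 : ℝ) ^ (3 * c + 2) * 2 ^ (2 * c) :=
              mul_le_mul_of_nonneg_right h1 (by positivity)
          _ = (1 / 2 : ℝ) ^ (c + 2) := by
              have : 3 * c + 2 = (c + 2) + 2 * c := by ring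
              rw [this, pow_add, mul_assoc, ← mul_pow]
              norm_num
          _ ≤ 1 := pow_le_one₀ (by norm_num) (by norm_num)
      have h4 : (0 : ℝ) < 2 ^ s := by positivity
      nlinarith
    exact_mod_cast h2
  have hhon : ∀ s a, mass (st A F viol c s) a s * 2 ^ (K a) ≤ 2 ^ s := by
    intro s a
    rcases Nat.eq_zero_or_pos (mass (st A F viol c s) a s) with h0 | h0
    · rw [h0]; simp
    · -- least good exponent
      have hex : ∃ k, 2 ^ s ≤ 2 ^ (k + 2 * c) * mass (st A F viol c s) a s := by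
        refine ⟨s, ?_⟩
        calc 2 ^ s ≤ 2 ^ (s + 2 * c) := Nat.pow_le_pow_right (by norm_num) (by omega)
          _ ≤ 2 ^ (s + 2 * c) * mass (st A F viol c s) a s := Nat.le_mul_of_pos_right _ h0
      set k := Nat.find hex with hk
      have hk1 : 2 ^ s ≤ 2 ^ (k + 2 * c) * mass (st A F viol c s) a s := Nat.find_spec hex
      have hK'k : K' a ≤ k := by
        have := hK'le a (Nat.pair k (Nat.pair c s))
        have hgu : g a (Nat.pair k (Nat.pair c s)) = k := by
          show approxAux _ _ _ _ _ = k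
          simp only [Nat.unpair_pair]
          unfold approxAux
          rw [if_pos]
          exact hk1
        rwa [hgu] at this
      have hKa : K a ≤ k + c₁ := (hc₁ a).trans (by omega)
      rcases Nat.eq_zero_or_pos k with hk0 | hk0
      · have : K a ≤ 2 * c := by omega
        calc mass (st A F viol c s) a s * 2 ^ (K a)
            ≤ mass (st A F viol c s) a s * 2 ^ (2 * c) :=
              Nat.mul_le_mul_left _ (Nat.pow_le_pow_right (by norm_num) this)
          _ ≤ 2 ^ s := hmassle s a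
      · have hk2 : ¬ 2 ^ s ≤ 2 ^ (k - 1 + 2 * c) * mass (st A F viol c s) a s :=
          Nat.find_min hex (by omega)
        have : K a ≤ k - 1 + 2 * c := by omega
        calc mass (st A F viol c s) a s * 2 ^ (K a)
            ≤ mass (st A F viol c s) a s * 2 ^ (k - 1 + 2 * c) :=
              Nat.mul_le_mul_left _ (Nat.pow_le_pow_right (by norm_num) this)
          _ = 2 ^ (k - 1 + 2 * c) * mass (st A F viol c s) a s := Nat.mul_comm _ _
          _ ≤ 2 ^ s := (not_le.1 hk2).le
  -- contradiction with a violation in the limit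
  intro z
  by_contra hcon
  have hv : viol c (List.ofFn fun i => K (A i z)) = true := by
    cases h : viol c (List.ofFn fun i => K (A i z)) with
    | true => rfl
    | false => exact absurd h hcon
  choose t₀ ht₀ using hFlim
  set T := (Finset.univ : Finset (Fin N)).sup (fun i => t₀ (A i z))
    with hT
  set e := maxh (List.ofFn fun i => (A i z, K (A i z))) with he
  have hfire : ∀ t, T ≤ t → e ≤ t → fire A F viol c (Nat.pair z t) := by
    intro t hTt het
    have hprof : prof A F (Nat.pair z t) = List.ofFn fun i => (A i z, K (A i z)) := by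
      unfold prof
      congr 1
      funext i
      rw [Nat.unpair_pair]
      have : t₀ (A i z) ≤ t := le_trans (Finset.le_sup (f := fun i => t₀ (A i z))
        (Finset.mem_univ i)) hTt
      simp only [ht₀ (A i z) t this]
    refine ⟨?_, ?_, ?_⟩
    · rw [hprof, List.map_ofFn]
      exact hv
    · rw [hprof]
      intro p hp
      obtain ⟨i, rfl⟩ := (List.mem_ofFn' _ _).1 hp
      exact hhon _ _
    · rw [hprof, ← he]
      exact het.trans (Nat.right_le_pair z t)
  have hw : ∀ t, T ≤ t → e ≤ t → wt A F viol c (Nat.pair z t) = (1 / 2 : ℝ) ^ e := by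
    intro t hTt het
    have hfi := hfire t hTt het
    have hprof : prof A F (Nat.pair z t) = List.ofFn fun i => (A i z, K (A i z)) := by
      unfold prof
      congr 1
      funext i
      rw [Nat.unpair_pair]
      have : t₀ (A i z) ≤ t := le_trans (Finset.le_sup (f := fun i => t₀ (A i z))
        (Finset.mem_univ i)) hTt
      simp only [ht₀ (A i z) t this]
    unfold wt
    rw [if_pos hfi, hprof]
  set t₁ := max T e with ht₁
  -- many steps fire
  have hmany : ∀ m : ℕ, (m : ℝ) * (1 / 2 : ℝ) ^ e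
      ≤ Real.exp (1 + Real.log 2 - L c * Real.log 2 / Λ) := by
    intro m
    set S : Finset ℕ := (Finset.range m).image (fun j => Nat.pair z (t₁ + j)) with hS
    have hcard : ∑ s ∈ S, wt A F viol c s = m * (1 / 2 : ℝ) ^ e := by
      rw [hS, Finset.sum_image]
      · rw [Finset.sum_congr rfl (g := fun _ => (1 / 2 : ℝ) ^ e)]
        · simp
        · intro j _
          exact hw _ (le_trans (le_max_left _ _) (Nat.le_add_right _ _))
            (le_trans (le_max_right _ _) (Nat.le_add_right _ _))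
      · intro j _ j' _ hjj
        have := (Nat.pair_eq_pair.1 hjj).2
        omega
    rw [← hcard]
    refine le_trans (Finset.sum_le_sum_of_subset_of_nonneg
      (t := range (S.sup id + 1)) ?_ ?_) (hbound c (S.sup id + 1))
    · intro a ha
      have : a ≤ S.sup id := Finset.le_sup (f := id) ha
      exact Finset.mem_range.2 (by omega)
    · intro i _ _; exact wt_nonneg A F viol c i
  obtain ⟨m, hm⟩ := exists_nat_gt
    (Real.exp (1 + Real.log 2 - L c * Real.log 2 / Λ) / (1 / 2 : ℝ) ^ e)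
  have h1 := hmany m
  rw [div_lt_iff₀ (by positivity)] at hm
  linarith

end Pool.Agent.W_MP_fd63cb_lc
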