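import Pool.Agent.W_MP_fd63cb_lc.Abstract

/-!
The abstract theorem for computable real coefficients.
-/

set_option autoImplicit false

namespace Pool.Agent.W_MP_fd63cb_lc

open Finset
open scoped Classical

lemma computable_finsum {α : Type*} [Primcodable α] : ∀ {N : ℕ} {g : Fin N → α → ℕ},
    (∀ i, Computable (g i)) → Computable fun a => ∑ i, g i a := by
  intro N
  induction N with
  | zero => intro g _; simpa using Computable.const 0
  | succ N ih =>
    intro g hg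
    have h1 := ih (g := fun i => g i.succ) fun i => hg _
    have h2 : Computable fun a => g 0 a + ∑ i : Fin N, g i.succ a :=
      Primrec.nat_add.to_comp.comp (hg 0) h1
    exact h2.of_eq fun a => by rw [Fin.sum_univ_succ (fun i => g i a)]

lemma computable_le_bool {α : Type*} [Primcodable α] {f g : α → ℕ} (hf : Computable f)
    (hg : Computable g) : Computable fun a => decide (f a ≤ g a) := by
  have h : Primrec₂ fun m n : ℕ => decide (m ≤ n) := PrimrecRel.decide Primrec.nat_le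
  exact h.to_comp.comp hf hg

lemma nat_le_two_pow (k : ℕ) : (k : ℝ) / 2 ^ k ≤ 1 := by
  rw [div_le_one (by positivity)]
  exact_mod_cast Nat.lt_two_pow_self.le

/-- The main theorem for computable real coefficients. -/
theorem abstract_computable (K : ℕ → ℕ)
    (hK1 : ∃ f : ℕ → ℕ → ℕ, Computable₂ f ∧ ∀ x, (∀ t, K x ≤ f x t) ∧ ∃ t, f x t = K x)
    (hK2 : Summable (fun x : ℕ => ((1:ℝ)/2) ^ K x)) (hK3 : (∑' x : ℕ, ((1:ℝ)/2) ^ K x) ≤ 1)
    (hK4 : ∀ K' : ℕ → ℕ,
      ((∃ f : ℕ → ℕ → ℕ, Computable₂ f ∧ ∀ x, (∀ t, K' x ≤ f x t) ∧ ∃ t, f x t = K' x) ∧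
        Summable (fun x : ℕ => ((1:ℝ)/2) ^ K' x) ∧ (∑' x : ℕ, ((1:ℝ)/2) ^ K' x) ≤ 1) →
      ∃ c : ℕ, ∀ x, K x ≤ K' x + c)
    {N : ℕ} (A : Fin N → ℕ → ℕ) (hA : ∀ i, Computable (A i)) (lam : Fin N → ℝ)
    (P M : Fin N → ℕ → ℕ) (hP : ∀ i, Computable (P i)) (hM : ∀ i, Computable (M i))
    (hlam : ∀ i k, |lam i - ((P i k : ℝ) - M i k) / 2 ^ k| ≤ 1 / 2 ^ k)
    (hvalid : ∀ (n : ℕ) (p : Fin n → ℝ) (x : Fin n → ℕ), (∀ ω, 0 ≤ p ω) → ∑ ω, p ω = 1 →
      0 ≤ ∑ i, lam i * ent p (Setoid.ker fun ω => A i (x ω))) :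
    ∃ C : ℝ, ∀ z, -C ≤ ∑ i, lam i * (K (A i z) : ℝ) := by
  obtain ⟨Λ, hΛ⟩ := exists_nat_ge (∑ i, |lam i| + 1)
  have hΛ1 : (1 : ℝ) ≤ Λ := le_trans (by
    have : 0 ≤ ∑ i, |lam i| := Finset.sum_nonneg fun i _ => abs_nonneg _
    linarith) hΛ
  have hΛ2 : ∑ i, |lam i| ≤ (Λ : ℝ) := le_trans (by linarith) hΛ
  let L : ℕ → ℕ := fun c => Λ * (3 * c + N + 6)
  let kk : List ℕ → ℕ := fun h => ∑ i : Fin N, h.getD i 0
  let viol : ℕ → List ℕ → Bool := fun c h =>
    decide (∑ i : Fin N, P i (kk h) * h.getD i 0 + (L c + 1) * 2 ^ (kk h)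
      ≤ ∑ i : Fin N, M i (kk h) * h.getD i 0)
  have hget : ∀ i : Fin N, Computable fun q : ℕ × List ℕ => q.2.getD i 0 := by
    intro i
    exact ((Primrec.list_getD 0).comp Primrec.snd (Primrec.const (i : ℕ))).to_comp
  have hkk : Computable fun q : ℕ × List ℕ => kk q.2 := computable_finsum hget
  have hpow : Computable fun q : ℕ × List ℕ => 2 ^ (kk q.2) :=
    primrec_pow.to_comp.comp (Computable.const 2) hkk
  have hLc : Computable fun q : ℕ × List ℕ => L q.1 + 1 := by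
    have : Primrec fun c : ℕ => Λ * (3 * c + N + 6) + 1 :=
      Primrec.nat_add.comp (Primrec.nat_mul.comp (Primrec.const Λ)
        (Primrec.nat_add.comp (Primrec.nat_add.comp
          (Primrec.nat_mul.comp (Primrec.const 3) Primrec.id) (Primrec.const N))
          (Primrec.const 6))) (Primrec.const 1)
    exact this.to_comp.comp Computable.fst
  have hviol : Computable₂ viol := by
    refine (computable_le_bool (α := ℕ × List ℕ) ?_ ?_ : Computable _)
    · refine Primrec.nat_add.to_comp.comp (computable_finsum fun i => ?_) ?_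
      · exact Primrec.nat_mul.to_comp.comp ((hP i).comp hkk) (hget i)
      · exact Primrec.nat_mul.to_comp.comp hLc hpow
    · refine computable_finsum fun i => ?_
      exact Primrec.nat_mul.to_comp.comp ((hM i).comp hkk) (hget i)
  have hgetOf : ∀ (h : Fin N → ℕ) (i : Fin N), (List.ofFn h).getD i 0 = h i := by
    intro h i
    rw [List.getD_eq_getElem _ _ (by simp)]
    simp
  have hkOf : ∀ h : Fin N → ℕ, kk (List.ofFn h) = ∑ i, h i := by
    intro h
    exact Finset.sum_congr rfl fun i _ => hgetOf h i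
  have herr : ∀ h : Fin N → ℕ, |∑ i, lam i * (h i : ℝ) -
      (∑ i, ((P i (∑ i, h i) : ℝ) - M i (∑ i, h i)) * h i) / 2 ^ (∑ i, h i)| ≤ 1 := by
    intro h
    set k := ∑ i, h i with hk
    have e : ∑ i, lam i * (h i : ℝ) - (∑ i, ((P i k : ℝ) - M i k) * h i) / 2 ^ k
        = ∑ i, (lam i - ((P i k : ℝ) - M i k) / 2 ^ k) * h i := by
      rw [Finset.sum_div, ← Finset.sum_sub_distrib]
      refine Finset.sum_congr rfl fun i _ => ?_
      ring
    rw [e]
    calc |∑ i, (lam i - ((P i k : ℝ) - M i k) / 2 ^ k) * h i|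
        ≤ ∑ i, |(lam i - ((P i k : ℝ) - M i k) / 2 ^ k) * h i| :=
          Finset.abs_sum_le_sum_abs _ _
      _ ≤ ∑ i, 1 / 2 ^ k * (h i : ℝ) := by
          refine Finset.sum_le_sum fun i _ => ?_
          rw [abs_mul, abs_of_nonneg (Nat.cast_nonneg (h i) : (0 : ℝ) ≤ h i)]
          exact mul_le_mul_of_nonneg_right (hlam i k) (Nat.cast_nonneg _)
      _ = (k : ℝ) / 2 ^ k := by
          rw [← Finset.mul_sum, hk]
          push_cast
          ring
      _ ≤ 1 := nat_le_two_pow k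
  have hviolOf : ∀ c (h : Fin N → ℕ), viol c (List.ofFn h) = true ↔
      ∑ i : Fin N, P i (∑ i, h i) * h i + (L c + 1) * 2 ^ (∑ i, h i)
      ≤ ∑ i : Fin N, M i (∑ i, h i) * h i := by
    intro c h
    show decide _ = true ↔ _
    rw [decide_eq_true_iff, hkOf]
    simp only [hgetOf]
  have hsound : ∀ c (h : Fin N → ℕ), viol c (List.ofFn h) = true →
      ∑ i, lam i * h i ≤ -(L c : ℝ) := by
    intro c h hv
    rw [hviolOf] at hv
    set k := ∑ i, h i with hk
    have h1 : ((∑ i : Fin N, P i k * h i + (L c + 1) * 2 ^ k : ℕ) : ℝ)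
        ≤ ((∑ i : Fin N, M i k * h i : ℕ) : ℝ) := by exact_mod_cast hv
    push_cast at h1
    have h2 : (∑ i, ((P i k : ℝ) - M i k) * h i) / 2 ^ k ≤ -((L c : ℝ) + 1) := by
      rw [div_le_iff₀ (by positivity)]
      have : ∑ i, ((P i k : ℝ) - M i k) * h i
          = ∑ i, (P i k : ℝ) * h i - ∑ i, (M i k : ℝ) * h i := by
        rw [← Finset.sum_sub_distrib]
        exact Finset.sum_congr rfl fun i _ => by ring
      rw [this]
      linarith
    have h3 := (abs_le.1 (herr h)).2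
    rw [← hk] at h3
    linarith
  have hcomplete : ∀ c (h : Fin N → ℕ), viol c (List.ofFn h) = false →
      -((L c : ℝ) + 2) ≤ ∑ i, lam i * h i := by
    intro c h hv
    have hv' : ¬ viol c (List.ofFn h) = true := by rw [hv]; simp
    rw [hviolOf, not_le] at hv'
    set k := ∑ i, h i with hk
    have h1 : ((∑ i : Fin N, M i k * h i : ℕ) : ℝ)
        < ((∑ i : Fin N, P i k * h i + (L c + 1) * 2 ^ k : ℕ) : ℝ) := by exact_mod_cast hv'
    push_cast at h1
    have h2 : -((L c : ℝ) + 1) ≤ (∑ i, ((P i k : ℝ) - M i k) * h i) / 2 ^ k := by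
      rw [le_div_iff₀ (by positivity)]
      have : ∑ i, ((P i k : ℝ) - M i k) * h i
          = ∑ i, (P i k : ℝ) * h i - ∑ i, (M i k : ℝ) * h i := by
        rw [← Finset.sum_sub_distrib]
        exact Finset.sum_congr rfl fun i _ => by ring
      rw [this]
      linarith
    have h3 := (abs_le.1 (herr h)).1
    rw [← hk] at h3
    linarith
  have hLpos : ∀ c, (0 : ℝ) < L c := by
    intro c
    have : 0 < L c := by
      show 0 < Λ * (3 * c + N + 6)
      have : 0 < Λ := by exact_mod_cast (lt_of_lt_of_le zero_lt_one hΛ1)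
      positivity
    exact_mod_cast this
  have hL : ∀ c, (N : ℝ) * Real.exp (1 + Real.log 2 - (L c : ℝ) * Real.log 2 / Λ)
      ≤ (1 / 2 : ℝ) ^ (3 * c + 2) := by
    intro c
    have e1 : (L c : ℝ) * Real.log 2 / Λ = ((3 * c + N + 6 : ℕ) : ℝ) * Real.log 2 := by
      show ((Λ * (3 * c + N + 6) : ℕ) : ℝ) * Real.log 2 / Λ = _
      have : (Λ : ℝ) ≠ 0 := by positivity
      push_cast
      field_simp
    rw [e1]
    have e2 : Real.exp (1 + Real.log 2 - ((3 * c + N + 6 : ℕ) : ℝ) * Real.log 2)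
        = Real.exp 1 * 2 * (1 / 2 : ℝ) ^ (3 * c + N + 6) := by
      rw [Real.exp_sub, Real.exp_add, Real.exp_log (by norm_num), Real.exp_nat_mul,
        Real.exp_log (by norm_num)]
      rw [one_div, inv_pow, div_eq_mul_inv]
    rw [e2]
    have h3 : Real.exp 1 < 2.7182818286 := Real.exp_one_lt_d9
    have h4 : (N : ℝ) * (1 / 2 : ℝ) ^ N ≤ 1 := by
      have := nat_le_two_pow N
      rw [one_div, inv_pow, ← div_eq_mul_inv]
      exact this
    have e3 : 3 * c + N + 6 = (3 * c + 2) + (N + 4) := by ring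
    rw [e3, pow_add, pow_add _ N 4]
    have h5 : (0 : ℝ) < (1 / 2 : ℝ) ^ (3 * c + 2) := by positivity
    have h6 : (0 : ℝ) ≤ (N : ℝ) * (1 / 2 : ℝ) ^ N := by positivity
    have h7 : (N : ℝ) * (1 / 2 : ℝ) ^ N * (Real.exp 1 * 2 * (1 / 2 : ℝ) ^ 4) ≤ 1 := by
      have h8 : Real.exp 1 * 2 * (1 / 2 : ℝ) ^ 4 ≤ 1 := by norm_num at h3 ⊢; linarith
      have h9 : 0 ≤ Real.exp 1 * 2 * (1 / 2 : ℝ) ^ 4 := by positivity
      calc (N : ℝ) * (1 / 2 : ℝ) ^ N * (Real.exp 1 * 2 * (1 / 2 : ℝ) ^ 4)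
          ≤ 1 * 1 := mul_le_mul h4 h8 h9 zero_le_one
        _ = 1 := one_mul 1
    calc (N : ℝ) * (Real.exp 1 * 2 * ((1 / 2 : ℝ) ^ (3 * c + 2) * ((1 / 2 : ℝ) ^ N *
          (1 / 2 : ℝ) ^ 4)))
        = (1 / 2 : ℝ) ^ (3 * c + 2) *
          ((N : ℝ) * (1 / 2 : ℝ) ^ N * (Real.exp 1 * 2 * (1 / 2 : ℝ) ^ 4)) := by ring
      _ ≤ (1 / 2 : ℝ) ^ (3 * c + 2) * 1 := mul_le_mul_of_nonneg_left h7 h5.le
      _ = (1 / 2 : ℝ) ^ (3 * c + 2) := mul_one _
  obtain ⟨c, hc⟩ := abstract_main K hK1 hK2 hK3 hK4 A hA lam hvalid viol hviol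
    (fun c => (L c : ℝ)) hLpos hsound Λ hΛ2 hL
  refine ⟨(L c : ℝ) + 2, fun z => ?_⟩
  exact hcomplete c (fun i => K (A i z)) (hc z)

end Pool.Agent.W_MP_fd63cb_lc
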