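import Mathlib

/-!
Shannon entropy of partitions (setoids) of a finite weighted set: submodularity.
-/

set_option autoImplicit false

namespace Pool.Agent.W_MP_fd63cb_lc

open Finset
open scoped Classical

variable {Ω : Type*} [Fintype Ω]

/-- The mass of the class of `ω`. -/
noncomputable def cls (p : Ω → ℝ) (r : Setoid Ω) (ω : Ω) : ℝ :=
  ∑ ω', if r ω ω' then p ω' else 0

/-- Entropy of the partition `r` under the weights `p`. -/
noncomputable def ent (p : Ω → ℝ) (r : Setoid Ω) : ℝ :=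
  -∑ ω, p ω * Real.log (cls p r ω)

lemma cls_nonneg {p : Ω → ℝ} (hp : ∀ ω, 0 ≤ p ω) (r : Setoid Ω) (ω : Ω) : 0 ≤ cls p r ω :=
  Finset.sum_nonneg fun ω' _ => by split_ifs <;> [exact hp ω'; exact le_rfl]

lemma le_cls {p : Ω → ℝ} (hp : ∀ ω, 0 ≤ p ω) (r : Setoid Ω) (ω : Ω) : p ω ≤ cls p r ω := by
  have h := Finset.single_le_sum (f := fun ω' => if r ω ω' then p ω' else 0)
    (fun ω' _ => by
      show 0 ≤ if r ω ω' then p ω' else 0
      split_ifs <;> [exact hp ω'; exact le_rfl]) (Finset.mem_univ ω)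
  simpa [cls, r.refl ω] using h

lemma cls_pos {p : Ω → ℝ} (hp : ∀ ω, 0 ≤ p ω) (r : Setoid Ω) {ω : Ω} (h : 0 < p ω) :
    0 < cls p r ω := lt_of_lt_of_le h (le_cls hp r ω)

lemma cls_congr {p : Ω → ℝ} {r : Setoid Ω} {ω ω' : Ω} (h : r ω ω') :
    cls p r ω = cls p r ω' := by
  unfold cls
  refine Finset.sum_congr rfl fun x _ => ?_
  have : r ω x ↔ r ω' x := ⟨fun hx => r.trans (r.symm h) hx, fun hx => r.trans h hx⟩
  simp [this]

/-- Submodularity: if `r₁, r₂ ≤ r₃` then `H(r₁ ⊓ r₂) + H(r₃) ≤ H(r₁) + H(r₂)`. -/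
theorem ent_submod {p : Ω → ℝ} (hp : ∀ ω, 0 ≤ p ω) {r₁ r₂ r₃ : Setoid Ω}
    (h₁ : r₁ ≤ r₃) (h₂ : r₂ ≤ r₃) :
    ent p (r₁ ⊓ r₂) + ent p r₃ ≤ ent p r₁ + ent p r₂ := by
  set P₁ := cls p r₁
  set P₂ := cls p r₂
  set P₃ := cls p r₃
  set P := cls p (r₁ ⊓ r₂)
  -- pointwise bound
  have key : ∀ ω, p ω * (Real.log (P₁ ω) + Real.log (P₂ ω) - Real.log (P ω) - Real.log (P₃ ω))
      ≤ p ω * (P₁ ω * P₂ ω / (P ω * P₃ ω)) - p ω := by
    intro ω
    rcases (hp ω).eq_or_lt with h0 | h0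
    · simp [← h0]
    · have q₁ := cls_pos hp r₁ h0
      have q₂ := cls_pos hp r₂ h0
      have q₃ := cls_pos hp r₃ h0
      have q := cls_pos hp (r₁ ⊓ r₂) h0
      have hlog : Real.log (P₁ ω) + Real.log (P₂ ω) - Real.log (P ω) - Real.log (P₃ ω)
          = Real.log (P₁ ω * P₂ ω / (P ω * P₃ ω)) := by
        rw [Real.log_div (by positivity) (by positivity), Real.log_mul (by positivity)
          (by positivity), Real.log_mul (by positivity) (by positivity)]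
        ring
      rw [hlog]
      have := Real.log_le_sub_one_of_pos (show 0 < P₁ ω * P₂ ω / (P ω * P₃ ω) by positivity)
      nlinarith
  -- sum of the right-hand side is at most zero
  have hsum : ∑ ω, p ω * (P₁ ω * P₂ ω / (P ω * P₃ ω)) ≤ ∑ ω, p ω := by
    have e1 : ∀ ω, p ω * (P₁ ω * P₂ ω / (P ω * P₃ ω)) =
        ∑ ω₁, ∑ ω₂, p ω₁ * p ω₂ *
          (if r₁ ω ω₁ ∧ r₂ ω ω₂ then p ω / (P ω * P₃ ω) else 0) := by
      intro ω
      have : P₁ ω * P₂ ω = ∑ ω₁, ∑ ω₂, (if r₁ ω ω₁ ∧ r₂ ω ω₂ then p ω₁ * p ω₂ else 0) := by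
        simp only [P₁, P₂, cls]
        rw [Finset.sum_mul_sum]
        refine Finset.sum_congr rfl fun a _ => Finset.sum_congr rfl fun b _ => ?_
        by_cases ha : r₁ ω a <;> by_cases hb : r₂ ω b <;> simp [ha, hb]
      rw [this, Finset.sum_div, Finset.mul_sum]
      refine Finset.sum_congr rfl fun a _ => ?_
      rw [Finset.sum_div, Finset.mul_sum]
      refine Finset.sum_congr rfl fun b _ => ?_
      split_ifs <;> ring
    simp_rw [e1]
    rw [Finset.sum_comm]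
    have e2 : ∀ ω₁, ∑ ω, ∑ ω₂, p ω₁ * p ω₂ *
          (if r₁ ω ω₁ ∧ r₂ ω ω₂ then p ω / (P ω * P₃ ω) else 0) ≤ p ω₁ := by
      intro ω₁
      rw [Finset.sum_comm]
      rcases (hp ω₁).eq_or_lt with h0 | h0
      · simp [← h0]
      have q₃ := cls_pos hp r₃ h0
      have e3 : ∀ ω₂, ∑ ω, p ω₁ * p ω₂ *
          (if r₁ ω ω₁ ∧ r₂ ω ω₂ then p ω / (P ω * P₃ ω) else 0) ≤
            p ω₁ * (if r₃ ω₁ ω₂ then p ω₂ else 0) / P₃ ω₁ := by
        intro ω₂
        rw [← Finset.mul_sum]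
        by_cases hex : ∃ ω₀, r₁ ω₀ ω₁ ∧ r₂ ω₀ ω₂
        · obtain ⟨ω₀, ha, hb⟩ := hex
          have h3 : r₃ ω₁ ω₂ := r₃.trans (r₃.symm (h₁ ha)) (h₂ hb)
          rw [if_pos h3]
          have hle : ∑ ω, (if r₁ ω ω₁ ∧ r₂ ω ω₂ then p ω / (P ω * P₃ ω) else 0)
              ≤ 1 / P₃ ω₁ := by
            have heq : ∀ ω, (if r₁ ω ω₁ ∧ r₂ ω ω₂ then p ω / (P ω * P₃ ω) else 0)
                = (if (r₁ ⊓ r₂) ω₀ ω then p ω else 0) / (P ω₀ * P₃ ω₁) := by
              intro ω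
              by_cases hω : r₁ ω ω₁ ∧ r₂ ω ω₂
              · have hr : (r₁ ⊓ r₂) ω₀ ω :=
                  ⟨r₁.trans ha (r₁.symm hω.1), r₂.trans hb (r₂.symm hω.2)⟩
                rw [if_pos hω, if_pos hr]
                have a1 : P ω = P ω₀ := (cls_congr hr).symm
                have a2 : P₃ ω = P₃ ω₁ := cls_congr (h₁ hω.1)
                rw [a1, a2]
              · have hr : ¬ (r₁ ⊓ r₂) ω₀ ω := fun hr =>
                  hω ⟨r₁.trans (r₁.symm hr.1) ha, r₂.trans (r₂.symm hr.2) hb⟩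
                rw [if_neg hω, if_neg hr, zero_div]
            rw [Finset.sum_congr rfl fun ω _ => heq ω, ← Finset.sum_div]
            change P ω₀ / (P ω₀ * P₃ ω₁) ≤ 1 / P₃ ω₁
            rcases (cls_nonneg hp (r₁ ⊓ r₂) ω₀).eq_or_lt with hz | hz
            · have : P ω₀ = 0 := hz.symm
              rw [this, zero_div]; positivity
            · have hz' : 0 < P ω₀ := hz
              have : P ω₀ / (P ω₀ * P₃ ω₁) = 1 / P₃ ω₁ := by
                field_simp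
              rw [this]
          calc p ω₁ * p ω₂ * ∑ ω, (if r₁ ω ω₁ ∧ r₂ ω ω₂ then p ω / (P ω * P₃ ω) else 0)
              ≤ p ω₁ * p ω₂ * (1 / P₃ ω₁) :=
                mul_le_mul_of_nonneg_left hle (mul_nonneg (hp _) (hp _))
            _ = p ω₁ * p ω₂ / P₃ ω₁ := by ring
        · have hz : ∀ ω, (if r₁ ω ω₁ ∧ r₂ ω ω₂ then p ω / (P ω * P₃ ω) else 0) = 0 :=
            fun ω => if_neg fun h => hex ⟨ω, h⟩
          rw [Finset.sum_congr rfl fun ω _ => hz ω, Finset.sum_const_zero, mul_zero]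
          have : 0 ≤ (if r₃ ω₁ ω₂ then p ω₂ else 0) := by
            split_ifs <;> [exact hp ω₂; exact le_rfl]
          exact div_nonneg (mul_nonneg (hp _) this) q₃.le
      calc ∑ ω₂, ∑ ω, p ω₁ * p ω₂ *
          (if r₁ ω ω₁ ∧ r₂ ω ω₂ then p ω / (P ω * P₃ ω) else 0)
          ≤ ∑ ω₂, p ω₁ * (if r₃ ω₁ ω₂ then p ω₂ else 0) / P₃ ω₁ :=
            Finset.sum_le_sum fun ω₂ _ => e3 ω₂
        _ = p ω₁ * P₃ ω₁ / P₃ ω₁ := by
            rw [← Finset.sum_div, ← Finset.mul_sum]; rfl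
        _ = p ω₁ := by
            have : P₃ ω₁ ≠ 0 := ne_of_gt q₃
            field_simp
    exact Finset.sum_le_sum fun ω₁ _ => e2 ω₁
  have htot : ∑ ω, p ω * (Real.log (P₁ ω) + Real.log (P₂ ω) - Real.log (P ω) - Real.log (P₃ ω))
      ≤ 0 := by
    calc _ ≤ ∑ ω, (p ω * (P₁ ω * P₂ ω / (P ω * P₃ ω)) - p ω) :=
          Finset.sum_le_sum fun ω _ => key ω
      _ = ∑ ω, p ω * (P₁ ω * P₂ ω / (P ω * P₃ ω)) - ∑ ω, p ω := by
          rw [Finset.sum_sub_distrib]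
      _ ≤ 0 := by linarith
  have hexp : ∑ ω, p ω * (Real.log (P₁ ω) + Real.log (P₂ ω) - Real.log (P ω) - Real.log (P₃ ω))
      = ∑ ω, p ω * Real.log (P₁ ω) + ∑ ω, p ω * Real.log (P₂ ω)
        - ∑ ω, p ω * Real.log (P ω) - ∑ ω, p ω * Real.log (P₃ ω) := by
    rw [← Finset.sum_add_distrib, ← Finset.sum_sub_distrib, ← Finset.sum_sub_distrib]
    refine Finset.sum_congr rfl fun ω _ => ?_
    ring
  rw [hexp] at htot
  simp only [ent]
  linarith

/-- Joint entropy of the variables `X i`, `i ∈ S`. -/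
noncomputable def jent {ι α : Type*} (p : Ω → ℝ) (X : ι → Ω → α) (S : Finset ι) : ℝ :=
  ent p (S.inf fun i => Setoid.ker (X i))

theorem jent_submod {ι α : Type*} {p : Ω → ℝ} (hp : ∀ ω, 0 ≤ p ω)
    (X : ι → Ω → α) (S T : Finset ι) :
    jent p X (S ∪ T) + jent p X (S ∩ T) ≤ jent p X S + jent p X T := by
  unfold jent
  rw [Finset.inf_union]
  exact ent_submod hp (Finset.inf_mono Finset.inter_subset_left)
    (Finset.inf_mono Finset.inter_subset_right)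

end Pool.Agent.W_MP_fd63cb_lc
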