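import Pool.Agent.W_MP_fd63cb_lc.CompReal

/-!
The general theorem: linear information inequalities with computable real coefficients hold for
prefix complexity up to an additive constant.
-/

set_option autoImplicit false

namespace Pool.Agent.W_MP_fd63cb_lc

open Finset
open scoped Classical

/-- The entropy of a random variable `g` is the entropy of its kernel. -/
lemma sum_negMulLog_eq_ent {Ω β : Type*} [Fintype Ω] [Fintype β] [DecidableEq β] (p : Ω → ℝ) (g : Ω → β) :
    ∑ y : β, Real.negMulLog (∑ ω, if g ω = y then p ω else 0) = ent p (Setoid.ker g) := by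
  have h1 : ∀ y : β, Real.negMulLog (∑ ω, if g ω = y then p ω else 0)
      = ∑ ω, if g ω = y then -(p ω * Real.log (cls p (Setoid.ker g) ω)) else 0 := by
    intro y
    rw [Real.negMulLog, neg_mul, Finset.sum_mul, ← Finset.sum_neg_distrib]
    refine Finset.sum_congr rfl fun ω _ => ?_
    by_cases h : g ω = y
    · rw [if_pos h, if_pos h]
      congr 3
      unfold cls
      refine Finset.sum_congr rfl fun ω' _ => ?_
      have : g ω' = y ↔ (Setoid.ker g) ω ω' := by
        rw [Setoid.ker_def, h]; exact eq_comm
      by_cases hh : g ω' = y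
      · rw [if_pos hh, if_pos (this.1 hh)]
      · rw [if_neg hh, if_neg (fun h' => hh (this.2 h'))]
    · rw [if_neg h, if_neg h]; simp
  rw [Finset.sum_congr rfl fun y _ => h1 y, Finset.sum_comm]
  unfold ent
  rw [← Finset.sum_neg_distrib]
  refine Finset.sum_congr rfl fun ω _ => ?_
  rw [Finset.sum_ite_eq]
  simp

/-- The subtuple of `x` with indices in `S`, as a list. -/
def subtuple {n : ℕ} {α : Type*} (x : Fin n → α) (S : Finset (Fin n)) : List α :=
  ((List.finRange n).filter (fun i => decide (i ∈ S))).map x

lemma subtuple_eq_iff {n : ℕ} {α : Type*} (x y : Fin n → α) (S : Finset (Fin n)) :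
    subtuple x S = subtuple y S ↔ ∀ i ∈ S, x i = y i := by
  unfold subtuple
  rw [List.map_inj_left]
  constructor
  · intro h i hi
    exact h i (List.mem_filter.2 ⟨List.mem_finRange i, by simpa using hi⟩)
  · intro h i hi
    exact h i (by simpa using (List.mem_filter.1 hi).2)

lemma computable_map_fixed {n : ℕ} {α : Type*} [Primcodable α] {x : ℕ → Fin n → α}
    (hx : Computable x) (l : List (Fin n)) : Computable fun z => l.map (x z) := by
  induction l with
  | nil => exact Computable.const []
  | cons i l ih =>
    have h1 : Computable fun z => x z i := (Computable.fin_app.comp hx (Computable.const i) :)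
    exact Computable.list_cons.comp h1 ih

/-- Code of an `n`-tuple. -/
def tcode {n : ℕ} {α : Type*} [Primcodable α] (x : Fin n → α) : ℕ :=
  @Encodable.encode (Fin n → α) Primcodable.finArrow.toEncodable x

/-- Decoding of `n`-tuples. -/
def tup (n : ℕ) (α : Type*) [Primcodable α] [Inhabited α] (z : ℕ) : Fin n → α :=
  (@Encodable.decode (Fin n → α) Primcodable.finArrow.toEncodable z).getD (fun _ => default)

lemma tup_encode {n : ℕ} {α : Type*} [Primcodable α] [Inhabited α] (x : Fin n → α) :
    tup n α (tcode x) = x := by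
  unfold tup tcode
  rw [@Encodable.encodek (Fin n → α) Primcodable.finArrow.toEncodable x]
  rfl

lemma computable_tup (n : ℕ) (α : Type*) [Primcodable α] [Inhabited α] :
    Computable (tup n α) :=
  Computable.option_getD
    (f := fun z : ℕ => (@Encodable.decode (Fin n → α) Primcodable.finArrow.toEncodable z))
    (g := fun _ => fun _ => default) Computable.decode (Computable.const _)

/-- The general theorem. -/
theorem general (K : ℕ → ℕ)
    (hK1 : ∃ f : ℕ → ℕ → ℕ, Computable₂ f ∧ ∀ x, (∀ t, K x ≤ f x t) ∧ ∃ t, f x t = K x)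
    (hK2 : Summable (fun x : ℕ => ((1:ℝ)/2) ^ K x)) (hK3 : (∑' x : ℕ, ((1:ℝ)/2) ^ K x) ≤ 1)
    (hK4 : ∀ K' : ℕ → ℕ,
      ((∃ f : ℕ → ℕ → ℕ, Computable₂ f ∧ ∀ x, (∀ t, K' x ≤ f x t) ∧ ∃ t, f x t = K' x) ∧
        Summable (fun x : ℕ => ((1:ℝ)/2) ^ K' x) ∧ (∑' x : ℕ, ((1:ℝ)/2) ^ K' x) ≤ 1) →
      ∃ c : ℕ, ∀ x, K x ≤ K' x + c)
    {α : Type*} [Primcodable α] [Inhabited α]
    (code : List α → ℕ) (hcode : Computable code) (hinj : Function.Injective code)
    {n : ℕ} (lam : Finset (Fin n) → ℝ)
    (hlam : ∀ S, ∃ a b : ℕ → ℕ, Computable a ∧ Computable b ∧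
      ∀ k, |lam S - ((a k : ℝ) - b k) / 2 ^ k| ≤ 1 / 2 ^ k)
    (hvalid : ∀ (m : ℕ) (p : (Fin n → Fin m) → ℝ), (∀ z, 0 ≤ p z) → ∑ z, p z = 1 →
      0 ≤ ∑ S : Finset (Fin n), lam S *
        ∑ y : S → Fin m, Real.negMulLog (∑ z : Fin n → Fin m,
          if (∀ i : S, z i = y i) then p z else 0)) :
    ∃ c : ℝ, ∀ x : Fin n → α, -c ≤ ∑ S : Finset (Fin n), lam S * (K (code (subtuple x S)) : ℝ) := by
  choose a b ha hb hab using hlam
  let e := Fintype.equivFin (Finset (Fin n))
  set N := Fintype.card (Finset (Fin n)) with hN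
  have hv : ∀ (n' : ℕ) (p : Fin n' → ℝ) (x : Fin n' → ℕ), (∀ ω, 0 ≤ p ω) → ∑ ω, p ω = 1 →
      0 ≤ ∑ i : Fin N, lam (e.symm i) * ent p (Setoid.ker fun ω =>
        code (subtuple (tup n α (x ω)) (e.symm i))) := by
    intro n' p x hp hsum
    -- a bound for all codes of entries
    set X : Fin n' → Fin n → α := fun ω => tup n α (x ω) with hX
    obtain ⟨m, hm⟩ : ∃ m, ∀ ω i, Encodable.encode (X ω i) < m := by
      refine ⟨(Finset.univ : Finset (Fin n' × Fin n)).sup
        (fun q => Encodable.encode (X q.1 q.2)) + 1, fun ω i => ?_⟩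
      have := Finset.le_sup (f := fun q : Fin n' × Fin n => Encodable.encode (X q.1 q.2))
        (Finset.mem_univ (ω, i))
      simp only at this
      omega
    let T : Fin n' → Fin n → Fin m := fun ω i => ⟨Encodable.encode (X ω i), hm ω i⟩
    let q : (Fin n → Fin m) → ℝ := fun z => ∑ ω, if T ω = z then p ω else 0
    have hq0 : ∀ z, 0 ≤ q z := fun z => Finset.sum_nonneg fun ω _ => by
      split_ifs <;> [exact hp ω; exact le_rfl]
    have hq1 : ∑ z, q z = 1 := by
      show ∑ z, ∑ ω, (if T ω = z then p ω else 0) = 1
      rw [Finset.sum_comm, ← hsum]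
      refine Finset.sum_congr rfl fun ω _ => ?_
      rw [Finset.sum_ite_eq]; simp
    have h := hvalid m q hq0 hq1
    have hS : ∀ S : Finset (Fin n), ∑ y : S → Fin m, Real.negMulLog (∑ z : Fin n → Fin m,
          if (∀ i : S, z i = y i) then q z else 0)
        = ent p (Setoid.ker fun ω => code (subtuple (X ω) S)) := by
      intro S
      have h1 : ∀ y : S → Fin m, ∑ z : Fin n → Fin m, (if (∀ i : S, z i = y i) then q z else 0)
          = ∑ ω, if (fun i : S => T ω i) = y then p ω else 0 := by
        intro y
        have h2 : ∀ z : Fin n → Fin m, (if (∀ i : S, z i = y i) then q z else 0)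
            = ∑ ω, if T ω = z then (if (fun i : S => T ω i) = y then p ω else 0) else 0 := by
          intro z
          by_cases hz : ∀ i : S, z i = y i
          · rw [if_pos hz]
            refine Finset.sum_congr rfl fun ω _ => ?_
            by_cases hT : T ω = z
            · rw [if_pos hT, if_pos hT, if_pos]
              funext i
              rw [hT]; exact hz i
            · rw [if_neg hT, if_neg hT]
          · rw [if_neg hz]
            symm
            refine Finset.sum_eq_zero fun ω _ => ?_
            by_cases hT : T ω = z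
            · rw [if_pos hT, if_neg]
              intro hy
              apply hz
              intro i
              rw [← hT]
              exact congrFun hy i
            · rw [if_neg hT]
        rw [Finset.sum_congr rfl fun z _ => h2 z, Finset.sum_comm]
        refine Finset.sum_congr rfl fun ω _ => ?_
        rw [Finset.sum_ite_eq]; simp
      rw [Finset.sum_congr rfl fun y _ => by rw [h1 y],
        sum_negMulLog_eq_ent p (fun ω => (fun i : S => T ω i))]
      congr 1
      ext ω ω'
      rw [Setoid.ker_def, Setoid.ker_def, hinj.eq_iff, subtuple_eq_iff, funext_iff]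
      constructor
      · intro hh i hi
        have := hh ⟨i, hi⟩
        simp only [T, Fin.mk.injEq, Encodable.encode_inj] at this
        exact this
      · intro hh i
        simp only [T, Fin.mk.injEq, Encodable.encode_inj]
        exact hh i i.2
    have h3 : ∑ i : Fin N, lam (e.symm i) * ent p (Setoid.ker fun ω =>
        code (subtuple (tup n α (x ω)) (e.symm i)))
        = ∑ S : Finset (Fin n), lam S * ∑ y : S → Fin m, Real.negMulLog (∑ z : Fin n → Fin m,
          if (∀ i : S, z i = y i) then q z else 0) := by
      rw [← Equiv.sum_comp e.symm]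
      refine Finset.sum_congr rfl fun i _ => ?_
      rw [hS]
    rw [h3]
    exact h
  obtain ⟨C, hC⟩ := abstract_computable K hK1 hK2 hK3 hK4
    (fun (i : Fin N) z => code (subtuple (tup n α z) (e.symm i)))
    (fun i => hcode.comp (computable_map_fixed (computable_tup n α) _))
    (fun i => lam (e.symm i)) (fun i => a (e.symm i)) (fun i => b (e.symm i))
    (fun i => ha _) (fun i => hb _) (fun i k => hab _ k) hv
  refine ⟨C, fun x => ?_⟩
  have h := hC (tcode x)
  rw [tup_encode] at h
  rw [← Equiv.sum_comp e.symm]
  exact h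

end Pool.Agent.W_MP_fd63cb_lc
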