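import Mathlib

/-!
The request strategy and its computability.
-/

set_option autoImplicit false

namespace Pool.Agent.W_MP_fd63cb_lc

/-- Mass already requested at the code `a`, in units of `2 ^ (-s)`. -/
def mass (l : List (ℕ × ℕ)) (a s : ℕ) : ℕ :=
  l.foldr (fun p acc => (if p.1 = a then 2 ^ (s - p.2) else 0) + acc) 0

/-- Largest second component. -/
def maxh (L : List (ℕ × ℕ)) : ℕ := L.foldr (fun p m => max p.2 m) 0

/-- Requests made so far are honoured along `L`. -/
def honoured (l L : List (ℕ × ℕ)) (s : ℕ) : Prop :=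
  ∀ p ∈ L, mass l p.1 s * 2 ^ p.2 ≤ 2 ^ s

instance (l L : List (ℕ × ℕ)) (s : ℕ) : Decidable (honoured l L s) := by
  unfold honoured; infer_instance

/-- One step of the strategy. -/
def step (b : Bool) (s : ℕ) (l L : List (ℕ × ℕ)) : List (ℕ × ℕ) :=
  if b = true ∧ honoured l L s ∧ maxh L ≤ s then
    L.map (fun p => (p.1, maxh L)) ++ l
  else l

/-- The list of requests made before step `s`. -/
def state (viol : ℕ → List ℕ → Bool) (prof : ℕ → List (ℕ × ℕ)) (c s : ℕ) : List (ℕ × ℕ) :=
  Nat.rec [] (fun s l => step (viol c ((prof s).map Prod.snd)) s l (prof s)) s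

/-- The finite part of `approx`. -/
def approxAux (k c s a : ℕ) (l : List (ℕ × ℕ)) : ℕ :=
  if 2 ^ s ≤ 2 ^ (k + 2 * c) * mass l a s then k else a + 2

/-- The upper approximation of the length function produced by the strategy. -/
def approx (viol : ℕ → List ℕ → Bool) (prof : ℕ → List (ℕ × ℕ)) (a u : ℕ) : ℕ :=
  approxAux u.unpair.1 u.unpair.2.unpair.1 u.unpair.2.unpair.2 a
    (state viol prof u.unpair.2.unpair.1 u.unpair.2.unpair.2)

open Primrec in
lemma primrec_pow : Primrec₂ ((· ^ ·) : ℕ → ℕ → ℕ) := Primrec₂.unpaired'.1 Nat.Primrec.pow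

lemma primrec_mass : Primrec fun q : List (ℕ × ℕ) × (ℕ × ℕ) => mass q.1 q.2.1 q.2.2 := by
  unfold mass
  have h : Primrec fun x : (List (ℕ × ℕ) × (ℕ × ℕ)) × ((ℕ × ℕ) × ℕ) =>
      (if x.2.1.1 = x.1.2.1 then 2 ^ (x.1.2.2 - x.2.1.2) else 0) + x.2.2 := by
    refine Primrec.nat_add.comp (Primrec.ite ?_ ?_ (Primrec.const 0)) ?_
    · exact Primrec.eq.comp (Primrec.fst.comp (Primrec.fst.comp Primrec.snd))
        (Primrec.fst.comp (Primrec.snd.comp Primrec.fst))
    · refine primrec_pow.comp (Primrec.const 2) (Primrec.nat_sub.comp ?_ ?_)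
      · exact Primrec.snd.comp (Primrec.snd.comp Primrec.fst)
      · exact Primrec.snd.comp (Primrec.fst.comp Primrec.snd)
    · exact Primrec.snd.comp Primrec.snd
  exact Primrec.list_foldr (f := fun q : List (ℕ × ℕ) × (ℕ × ℕ) => q.1) (g := fun _ => 0)
    (h := fun q r => (if r.1.1 = q.2.1 then 2 ^ (q.2.2 - r.1.2) else 0) + r.2)
    Primrec.fst (Primrec.const 0) h.to₂

lemma primrec_maxh : Primrec maxh := by
  unfold maxh
  have h : Primrec fun x : List (ℕ × ℕ) × ((ℕ × ℕ) × ℕ) => max x.2.1.2 x.2.2 :=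
    Primrec.nat_max.comp (Primrec.snd.comp (Primrec.fst.comp Primrec.snd))
      (Primrec.snd.comp Primrec.snd)
  exact Primrec.list_foldr (f := fun q : List (ℕ × ℕ) => q) (g := fun _ => 0)
    (h := fun _ r => max r.1.2 r.2) Primrec.id (Primrec.const 0) h.to₂

lemma primrec_honoured :
    PrimrecPred fun q : (List (ℕ × ℕ) × List (ℕ × ℕ)) × ℕ => honoured q.1.1 q.1.2 q.2 := by
  have hR : PrimrecRel fun (p : ℕ × ℕ) (b : List (ℕ × ℕ) × ℕ) =>
      mass b.1 p.1 b.2 * 2 ^ p.2 ≤ 2 ^ b.2 := by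
    refine Primrec.nat_le.comp (Primrec.nat_mul.comp ?_ ?_) ?_
    · exact primrec_mass.comp (Primrec.pair (Primrec.fst.comp Primrec.snd)
        (Primrec.pair (Primrec.fst.comp Primrec.fst) (Primrec.snd.comp Primrec.snd)))
    · exact primrec_pow.comp (Primrec.const 2) (Primrec.snd.comp Primrec.fst)
    · exact primrec_pow.comp (Primrec.const 2) (Primrec.snd.comp Primrec.snd)
  have h := PrimrecRel.forall_mem_list hR
  exact h.comp (Primrec.snd.comp Primrec.fst)
    (Primrec.pair (Primrec.fst.comp Primrec.fst) Primrec.snd)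

lemma primrec_step :
    Primrec fun q : (Bool × ℕ) × (List (ℕ × ℕ) × List (ℕ × ℕ)) =>
      step q.1.1 q.1.2 q.2.1 q.2.2 := by
  unfold step
  have hm : Primrec fun x : ((Bool × ℕ) × (List (ℕ × ℕ) × List (ℕ × ℕ))) × (ℕ × ℕ) =>
      (x.2.1, maxh x.1.2.2) :=
    Primrec.pair (Primrec.fst.comp Primrec.snd)
      (primrec_maxh.comp (Primrec.snd.comp (Primrec.snd.comp Primrec.fst)))
  refine Primrec.ite ?_ ?_ ?_
  · refine PrimrecPred.and ?_ (PrimrecPred.and ?_ ?_)
    · exact Primrec.eq.comp (Primrec.fst.comp Primrec.fst) (Primrec.const true)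
    · exact primrec_honoured.comp (Primrec.pair Primrec.snd (Primrec.snd.comp Primrec.fst))
    · exact Primrec.nat_le.comp (primrec_maxh.comp (Primrec.snd.comp Primrec.snd))
        (Primrec.snd.comp Primrec.fst)
  · exact Primrec.list_append.comp (Primrec.list_map (Primrec.snd.comp Primrec.snd) hm.to₂)
      (Primrec.fst.comp Primrec.snd)
  · exact Primrec.fst.comp Primrec.snd

lemma computable_state {viol : ℕ → List ℕ → Bool} {prof : ℕ → List (ℕ × ℕ)}
    (hv : Computable₂ viol) (hp : Computable prof) :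
    Computable fun q : ℕ × ℕ => state viol prof q.1 q.2 := by
  unfold state
  have hmap : Primrec fun L : List (ℕ × ℕ) => L.map Prod.snd :=
    Primrec.list_map Primrec.id
      (Primrec.snd.comp Primrec.snd : Primrec fun x : List (ℕ × ℕ) × (ℕ × ℕ) => x.2.2).to₂
  have hprof : Computable fun x : (ℕ × ℕ) × (ℕ × List (ℕ × ℕ)) => prof x.2.1 :=
    hp.comp (Computable.fst.comp Computable.snd)
  have hvv : Computable fun x : (ℕ × ℕ) × (ℕ × List (ℕ × ℕ)) =>
      viol x.1.1 ((prof x.2.1).map Prod.snd) :=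
    hv.comp (Computable.fst.comp Computable.fst) (hmap.to_comp.comp hprof)
  have h : Computable fun x : (ℕ × ℕ) × (ℕ × List (ℕ × ℕ)) =>
      step (viol x.1.1 ((prof x.2.1).map Prod.snd)) x.2.1 x.2.2 (prof x.2.1) :=
    primrec_step.to_comp.comp (Computable.pair
      (Computable.pair hvv (Computable.fst.comp Computable.snd))
      (Computable.pair (Computable.snd.comp Computable.snd) hprof))
  exact Computable.nat_rec (f := fun q : ℕ × ℕ => q.2) (g := fun _ => ([] : List (ℕ × ℕ)))
    (h := fun q r => step (viol q.1 ((prof r.1).map Prod.snd)) r.1 r.2 (prof r.1))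
    Computable.snd (Computable.const _) h.to₂

lemma primrec_approxAux :
    Primrec fun q : ((ℕ × ℕ) × (ℕ × ℕ)) × List (ℕ × ℕ) =>
      approxAux q.1.1.1 q.1.1.2 q.1.2.1 q.1.2.2 q.2 := by
  unfold approxAux
  have hk : Primrec fun q : ((ℕ × ℕ) × (ℕ × ℕ)) × List (ℕ × ℕ) => q.1.1.1 :=
    Primrec.fst.comp (Primrec.fst.comp Primrec.fst)
  have hc : Primrec fun q : ((ℕ × ℕ) × (ℕ × ℕ)) × List (ℕ × ℕ) => q.1.1.2 :=
    Primrec.snd.comp (Primrec.fst.comp Primrec.fst)
  have hs : Primrec fun q : ((ℕ × ℕ) × (ℕ × ℕ)) × List (ℕ × ℕ) => q.1.2.1 :=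
    Primrec.fst.comp (Primrec.snd.comp Primrec.fst)
  have ha : Primrec fun q : ((ℕ × ℕ) × (ℕ × ℕ)) × List (ℕ × ℕ) => q.1.2.2 :=
    Primrec.snd.comp (Primrec.snd.comp Primrec.fst)
  refine Primrec.ite (Primrec.nat_le.comp ?_ (Primrec.nat_mul.comp ?_ ?_)) hk ?_
  · exact primrec_pow.comp (Primrec.const 2) hs
  · exact primrec_pow.comp (Primrec.const 2)
      (Primrec.nat_add.comp hk (Primrec.nat_mul.comp (Primrec.const 2) hc))
  · exact primrec_mass.comp (Primrec.pair Primrec.snd (Primrec.pair ha hs))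
  · exact Primrec.nat_add.comp ha (Primrec.const 2)

lemma computable_approx {viol : ℕ → List ℕ → Bool} {prof : ℕ → List (ℕ × ℕ)}
    (hv : Computable₂ viol) (hp : Computable prof) :
    Computable₂ (approx viol prof) := by
  have hu : Computable fun q : ℕ × ℕ => q.2.unpair := Computable.unpair.comp Computable.snd
  have hu2 : Computable fun q : ℕ × ℕ => q.2.unpair.2.unpair :=
    Computable.unpair.comp (Computable.snd.comp hu)
  have hk : Computable fun q : ℕ × ℕ => q.2.unpair.1 := Computable.fst.comp hu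
  have hc : Computable fun q : ℕ × ℕ => q.2.unpair.2.unpair.1 := Computable.fst.comp hu2
  have hs : Computable fun q : ℕ × ℕ => q.2.unpair.2.unpair.2 := Computable.snd.comp hu2
  have hst : Computable fun q : ℕ × ℕ => state viol prof q.2.unpair.2.unpair.1
      q.2.unpair.2.unpair.2 := (computable_state hv hp).comp (Computable.pair hc hs)
  have harg : Computable fun q : ℕ × ℕ =>
      (((q.2.unpair.1, q.2.unpair.2.unpair.1), (q.2.unpair.2.unpair.2, q.1)),
        state viol prof q.2.unpair.2.unpair.1 q.2.unpair.2.unpair.2) :=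
    Computable.pair
      (Computable.pair (Computable.pair hk hc) (Computable.pair hs Computable.fst)) hst
  have haux := primrec_approxAux.to_comp
  have h := haux.comp harg
  exact h

end Pool.Agent.W_MP_fd63cb_lc
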