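import Pool.Agent.W_MP_fd63cb_lc.Potential
import Pool.Agent.W_MP_fd63cb_lc.Strategy

/-!
The main theorem in abstract form: a valid linear inequality for the entropies of computable
functions of a random variable holds, up to an additive constant, for prefix complexity.
-/

set_option autoImplicit false

namespace Pool.Agent.W_MP_fd63cb_lc

open Finset
open scoped Classical

/-- Monotone version of an upper approximation. -/
def mono (f : ℕ → ℕ → ℕ) (x t : ℕ) : ℕ := Nat.rec (f x 0) (fun s m => min m (f x (s + 1))) t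

lemma computable_mono {f : ℕ → ℕ → ℕ} (hf : Computable₂ f) : Computable₂ (mono f) := by
  have h : Computable fun x : (ℕ × ℕ) × (ℕ × ℕ) => min x.2.2 (f x.1.1 (x.2.1 + 1)) := by
    refine (Primrec.nat_min.to_comp).comp (Computable.snd.comp Computable.snd) ?_
    exact hf.comp (Computable.fst.comp Computable.fst)
      (Computable.succ.comp (Computable.fst.comp Computable.snd))
  have h0 : Computable fun x : ℕ × ℕ => f x.1 0 := hf.comp Computable.fst (Computable.const 0)
  exact Computable.nat_rec (f := fun q : ℕ × ℕ => q.2) (g := fun q : ℕ × ℕ => f q.1 0)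
    (h := fun q r => min r.2 (f q.1 (r.1 + 1))) Computable.snd h0 h.to₂

lemma mono_succ (f : ℕ → ℕ → ℕ) (x t : ℕ) :
    mono f x (t + 1) = min (mono f x t) (f x (t + 1)) := rfl

lemma le_mono {f : ℕ → ℕ → ℕ} {x m : ℕ} (h : ∀ t, m ≤ f x t) (t : ℕ) : m ≤ mono f x t := by
  induction t with
  | zero => exact h 0
  | succ t ih => rw [mono_succ]; exact le_min ih (h _)

lemma mono_le {f : ℕ → ℕ → ℕ} {x t₀ : ℕ} (t : ℕ) (ht : t₀ ≤ t) : mono f x t ≤ f x t₀ := by
  induction t with
  | zero =>
    have : t₀ = 0 := by omega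
    subst this; exact le_rfl
  | succ t ih =>
    rw [mono_succ]
    rcases Nat.lt_or_ge t t₀ with h | h
    · have : t₀ = t + 1 := by omega
      subst this; exact min_le_right _ _
    · exact (min_le_left _ _).trans (ih h)

/-- The real mass requested at the code `a`. -/
noncomputable def rmass (l : List (ℕ × ℕ)) (a : ℕ) : ℝ :=
  (l.map fun p => if p.1 = a then (1 / 2 : ℝ) ^ p.2 else 0).sum

lemma mass_eq (l : List (ℕ × ℕ)) (a s : ℕ) (h : ∀ p ∈ l, p.2 ≤ s) :
    (mass l a s : ℝ) = 2 ^ s * rmass l a := by
  induction l with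
  | nil => simp [mass, rmass]
  | cons p l ih =>
    have ih' := ih fun q hq => h q (List.mem_cons_of_mem _ hq)
    have hp := h p List.mem_cons_self
    have e1 : mass (p :: l) a s = (if p.1 = a then 2 ^ (s - p.2) else 0) + mass l a s := rfl
    have e2 : rmass (p :: l) a = (if p.1 = a then (1 / 2 : ℝ) ^ p.2 else 0) + rmass l a := by
      simp [rmass]
    rw [e1, e2, mul_add, ← ih']
    push_cast
    congr 1
    split_ifs
    · rw [one_div, inv_pow, ← div_eq_mul_inv, pow_sub₀ _ (by norm_num) hp]
      rfl
    · simp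

lemma rmass_append (l l' : List (ℕ × ℕ)) (a : ℕ) :
    rmass (l ++ l') a = rmass l a + rmass l' a := by
  simp [rmass]

lemma le_maxh {L : List (ℕ × ℕ)} {p : ℕ × ℕ} (h : p ∈ L) : p.2 ≤ maxh L := by
  induction L with
  | nil => simp at h
  | cons q L ih =>
    have e : maxh (q :: L) = max q.2 (maxh L) := rfl
    rw [e]
    rcases List.mem_cons.1 h with h | h
    · subst h; exact le_max_left _ _
    · exact (ih h).trans (le_max_right _ _)

section Analysis

variable {N : ℕ} (A : Fin N → ℕ → ℕ) (F : ℕ → ℕ → ℕ) (viol : ℕ → List ℕ → Bool)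

/-- The profile examined at step `s`. -/
def prof (s : ℕ) : List (ℕ × ℕ) :=
  List.ofFn fun i => (A i s.unpair.1, F (A i s.unpair.1) s.unpair.2)

/-- The state at step `s` with parameter `c`. -/
abbrev st (c s : ℕ) : List (ℕ × ℕ) := state viol (prof A F) c s

/-- The condition for making requests at step `s`. -/
def fire (c s : ℕ) : Prop :=
  viol c ((prof A F s).map Prod.snd) = true ∧ honoured (st A F viol c s) (prof A F s) s ∧
    maxh (prof A F s) ≤ s

/-- The weight of the request made at step `s`. -/
noncomputable def wt (c s : ℕ) : ℝ :=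
  if fire A F viol c s then (1 / 2 : ℝ) ^ (maxh (prof A F s)) else 0

lemma wt_nonneg (c s : ℕ) : 0 ≤ wt A F viol c s := by
  unfold wt; split_ifs <;> positivity

lemma st_succ (c s : ℕ) : st A F viol c (s + 1) =
    if fire A F viol c s then
      (prof A F s).map (fun p => (p.1, maxh (prof A F s))) ++ st A F viol c s
    else st A F viol c s := by
  have e : st A F viol c (s + 1) = step (viol c ((prof A F s).map Prod.snd)) s
      (st A F viol c s) (prof A F s) := rfl
  rw [e]
  unfold step
  by_cases h : fire A F viol c s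
  · have h' := h
    unfold fire at h'
    rw [if_pos h, if_pos h']
  · have h' := h
    unfold fire at h'
    rw [if_neg h, if_neg h']

lemma st_le (c s : ℕ) : ∀ p ∈ st A F viol c s, p.2 ≤ s := by
  induction s with
  | zero => intro p hp; exact absurd hp (by simp [st, state])
  | succ s ih =>
    intro p hp
    rw [st_succ] at hp
    split_ifs at hp with h
    · rcases List.mem_append.1 hp with hp | hp
      · obtain ⟨q, _, rfl⟩ := List.mem_map.1 hp
        exact h.2.2.trans (Nat.le_succ s)
      · exact (ih p hp).trans (Nat.le_succ s)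
    · exact (ih p hp).trans (Nat.le_succ s)

lemma rmass_st (c s a : ℕ) :
    rmass (st A F viol c s) a = ∑ i, Q (wt A F viol c) (fun t => A i t.unpair.1) s a := by
  induction s with
  | zero => simp [st, state, rmass, Q]
  | succ s ih =>
    have e : ∀ i, Q (wt A F viol c) (fun t => A i t.unpair.1) (s + 1) a =
        Q (wt A F viol c) (fun t => A i t.unpair.1) s a +
          if A i s.unpair.1 = a then wt A F viol c s else 0 := fun i => Q_succ _ _ _ _
    rw [Finset.sum_congr rfl fun i _ => e i, Finset.sum_add_distrib, ← ih, st_succ]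
    by_cases h : fire A F viol c s
    · rw [if_pos h, rmass_append, add_comm]
      congr 1
      have hw : wt A F viol c s = (1 / 2 : ℝ) ^ (maxh (prof A F s)) := by
        unfold wt; rw [if_pos h]
      rw [hw]
      unfold rmass
      rw [List.map_map]
      conv_lhs => unfold prof
      rw [List.map_ofFn, List.sum_ofFn]
      rfl
    · rw [if_neg h]
      have hw : wt A F viol c s = 0 := by unfold wt; rw [if_neg h]
      rw [hw]
      simp

lemma sum_rmass (c s : ℕ) (T : Finset ℕ) :
    ∑ a ∈ T, rmass (st A F viol c s) a ≤ N * ∑ t ∈ range s, wt A F viol c t := by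
  simp_rw [rmass_st]
  rw [Finset.sum_comm]
  have : ∀ i : Fin N, ∑ a ∈ T, Q (wt A F viol c) (fun t => A i t.unpair.1) s a
      ≤ ∑ t ∈ range s, wt A F viol c t := by
    intro i
    unfold Q
    rw [Finset.sum_comm]
    refine Finset.sum_le_sum fun t _ => ?_
    rw [Finset.sum_ite_eq]
    split_ifs
    · exact le_rfl
    · exact wt_nonneg A F viol c t
  calc ∑ i : Fin N, ∑ a ∈ T, Q (wt A F viol c) (fun t => A i t.unpair.1) s a
      ≤ ∑ _i : Fin N, ∑ t ∈ range s, wt A F viol c t := Finset.sum_le_sum fun i _ => this i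
    _ = N * ∑ t ∈ range s, wt A F viol c t := by simp

lemma mem_prof (s : ℕ) (i : Fin N) :
    (A i s.unpair.1, F (A i s.unpair.1) s.unpair.2) ∈ prof A F s := by
  unfold prof
  rw [List.mem_ofFn]
  exact ⟨i, rfl⟩

lemma map_prof (s : ℕ) : (prof A F s).map Prod.snd
    = List.ofFn fun i => F (A i s.unpair.1) s.unpair.2 := by
  unfold prof
  rw [List.map_ofFn]
  rfl

/-- The bound on the total weight of the requests. -/
theorem total_bound (K : ℕ → ℕ) (hK : ∀ T : Finset ℕ, ∑ c ∈ T, (1 / 2 : ℝ) ^ (K c) ≤ 1)
    (hF : ∀ x t, K x ≤ F x t) (lam : Fin N → ℝ)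
    (hvalid : ∀ (n : ℕ) (p : Fin n → ℝ) (x : Fin n → ℕ), (∀ ω, 0 ≤ p ω) → ∑ ω, p ω = 1 →
      0 ≤ ∑ i, lam i * ent p (Setoid.ker fun ω => A i (x ω)))
    (L : ℕ → ℝ) (hL0 : ∀ c, 0 < L c)
    (hsound : ∀ c (h : Fin N → ℕ), viol c (List.ofFn h) = true → ∑ i, lam i * h i ≤ -L c)
    (Λ : ℝ) (hΛ : ∑ i, |lam i| ≤ Λ) (c n : ℕ) :
    ∑ s ∈ range n, wt A F viol c s ≤ Real.exp (1 + Real.log 2 - L c * Real.log 2 / Λ) := by
  set κ := ∑ s ∈ range n, wt A F viol c s with hκ
  have hκ0 : 0 ≤ κ := Finset.sum_nonneg fun s _ => wt_nonneg A F viol c s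
  rcases hκ0.eq_or_lt with h0 | h0
  · rw [← h0]; positivity
  rw [← Real.log_le_iff_le_exp h0]
  have hfire : ∀ s, 0 < wt A F viol c s → fire A F viol c s := by
    intro s hs
    by_contra hcon
    unfold wt at hs
    rw [if_neg hcon] at hs
    exact lt_irrefl _ hs
  refine cost_bound lam (h := fun i s => (F (A i s.unpair.1) s.unpair.2 : ℝ))
    (wt_nonneg A F viol c) (fun i s => A i s.unpair.1) n K hK ?_ ?_ (L c) (hL0 c) ?_ h0 ?_ Λ hΛ
  · intro i s _ _
    exact_mod_cast hF _ _
  · intro i s _ hs
    have hf := hfire s hs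
    have hh := hf.2.1 _ (mem_prof A F s i)
    have hms := mass_eq (st A F viol c s) (A i s.unpair.1) s (st_le A F viol c s)
    have h1 : rmass (st A F viol c s) (A i s.unpair.1) * 2 ^ (F (A i s.unpair.1) s.unpair.2)
        ≤ 1 := by
      have h2 : ((mass (st A F viol c s) (A i s.unpair.1) s *
          2 ^ (F (A i s.unpair.1) s.unpair.2) : ℕ) : ℝ) ≤ ((2 ^ s : ℕ) : ℝ) := by
        exact_mod_cast hh
      push_cast at h2
      rw [hms] at h2
      have h3 : (0 : ℝ) < 2 ^ s := by positivity
      have h4 : (2 : ℝ) ^ s * (rmass (st A F viol c s) (A i s.unpair.1) *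
          2 ^ (F (A i s.unpair.1) s.unpair.2)) ≤ 2 ^ s * 1 := by linarith
      exact le_of_mul_le_mul_left h4 h3
    have h5 : Q (wt A F viol c) (fun t => A i t.unpair.1) s (A i s.unpair.1)
        ≤ (1 / 2 : ℝ) ^ (F (A i s.unpair.1) s.unpair.2) := by
      have h6 : Q (wt A F viol c) (fun t => A i t.unpair.1) s (A i s.unpair.1)
          ≤ rmass (st A F viol c s) (A i s.unpair.1) := by
        rw [rmass_st]
        exact Finset.single_le_sum
          (f := fun j => Q (wt A F viol c) (fun t => A j t.unpair.1) s (A i s.unpair.1))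
          (fun j _ => Q_nonneg (wt_nonneg A F viol c) _ _ _) (Finset.mem_univ i)
      refine h6.trans ?_
      rw [one_div, inv_pow, ← one_div, le_div_iff₀ (by positivity)]
      exact h1
    have h7 : wt A F viol c s ≤ (1 / 2 : ℝ) ^ (F (A i s.unpair.1) s.unpair.2) := by
      unfold wt
      rw [if_pos hf]
      exact pow_le_pow_of_le_one (by norm_num) (by norm_num) (le_maxh (mem_prof A F s i))
    rw [Real.rpow_natCast]
    linarith
  · intro s _ hs
    have hf := hfire s hs
    refine hsound c (fun i => F (A i s.unpair.1) s.unpair.2) ?_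
    have := hf.1
    rwa [map_prof] at this
  · -- validity
    let p : Fin n → ℝ := fun ω => wt A F viol c ω / κ
    have hp0 : ∀ ω, 0 ≤ p ω := fun ω => div_nonneg (wt_nonneg A F viol c _) h0.le
    have hp1 : ∑ ω, p ω = 1 := by
      have : ∑ ω : Fin n, wt A F viol c ω = κ := by
        rw [hκ, Finset.sum_range]
      simp only [p]
      rw [← Finset.sum_div, this]
      exact div_self h0.ne'
    have hv := hvalid n p (fun ω => (ω : ℕ).unpair.1) hp0 hp1
    have hent : ∀ i, E (wt A F viol c) (fun t => A i t.unpair.1) n + κ * Real.log κ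
        = κ * ent p (Setoid.ker fun ω : Fin n => A i (ω : ℕ).unpair.1) := by
      intro i
      have hcls : ∀ ω : Fin n, cls p (Setoid.ker fun ω : Fin n => A i (ω : ℕ).unpair.1) ω
          = Q (wt A F viol c) (fun t => A i t.unpair.1) n (A i (ω : ℕ).unpair.1) / κ := by
        intro ω
        unfold cls Q
        rw [Finset.sum_range, Finset.sum_div]
        refine Finset.sum_congr rfl fun ω' _ => ?_
        have : (Setoid.ker fun ω : Fin n => A i (ω : ℕ).unpair.1) ω ω' ↔
            A i (ω' : ℕ).unpair.1 = A i (ω : ℕ).unpair.1 := by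
          rw [Setoid.ker_def]; exact eq_comm
        simp only [this]
        split_ifs
        · rfl
        · simp
      have : κ * ent p (Setoid.ker fun ω : Fin n => A i (ω : ℕ).unpair.1)
          = ∑ ω : Fin n, (wt A F viol c ω * (-Real.log
            (Q (wt A F viol c) (fun t => A i t.unpair.1) n (A i (ω : ℕ).unpair.1)))
              + wt A F viol c ω * Real.log κ) := by
        unfold ent
        rw [← Finset.sum_neg_distrib, Finset.mul_sum]
        refine Finset.sum_congr rfl fun ω _ => ?_
        rw [hcls ω]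
        rcases (wt_nonneg A F viol c (ω : ℕ)).eq_or_lt with hz | hz
        · simp only [p]; rw [← hz]; simp
        · have hQ : 0 < Q (wt A F viol c) (fun t => A i t.unpair.1) n
              (A i (ω : ℕ).unpair.1) :=
            lt_of_lt_of_le hz (le_Q (wt_nonneg A F viol c) (fun t => A i t.unpair.1) ω.2)
          rw [Real.log_div hQ.ne' h0.ne']
          simp only [p]
          field_simp
          ring
      rw [this, Finset.sum_add_distrib]
      congr 1
      · unfold E; rw [Finset.sum_range]
      · rw [← Finset.sum_mul, hκ, Finset.sum_range]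
    have : ∑ i, lam i * (E (wt A F viol c) (fun t => A i t.unpair.1) n + κ * Real.log κ)
        = κ * ∑ i, lam i * ent p (Setoid.ker fun ω : Fin n => A i (ω : ℕ).unpair.1) := by
      rw [Finset.mul_sum]
      refine Finset.sum_congr rfl fun i _ => ?_
      rw [hent i]; ring
    rw [this]
    exact mul_nonneg h0.le hv

end Analysis

end Pool.Agent.W_MP_fd63cb_lc
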