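import Pool.Agent.W_MP_fd63cb_lc.Entropy

/-!
The cost bound for a sequence of requests made at violating points.
-/

set_option autoImplicit false

namespace Pool.Agent.W_MP_fd63cb_lc

open Finset
open scoped Classical

/-- Mass requested before step `n` at the code `c`. -/
noncomputable def Q (w : ℕ → ℝ) (a : ℕ → ℕ) (n c : ℕ) : ℝ :=
  ∑ s ∈ range n, if a s = c then w s else 0

lemma Q_nonneg {w : ℕ → ℝ} (hw : ∀ s, 0 ≤ w s) (a : ℕ → ℕ) (n c : ℕ) : 0 ≤ Q w a n c :=
  Finset.sum_nonneg fun s _ => by split_ifs <;> [exact hw s; exact le_rfl]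

lemma Q_succ (w : ℕ → ℝ) (a : ℕ → ℕ) (n c : ℕ) :
    Q w a (n + 1) c = Q w a n c + if a n = c then w n else 0 := by
  unfold Q; rw [Finset.sum_range_succ]

lemma Q_mono {w : ℕ → ℝ} (hw : ∀ s, 0 ≤ w s) (a : ℕ → ℕ) {m n : ℕ} (h : m ≤ n) (c : ℕ) :
    Q w a m c ≤ Q w a n c := by
  unfold Q
  refine Finset.sum_le_sum_of_subset_of_nonneg (Finset.range_mono h) fun s _ _ => ?_
  split_ifs <;> [exact hw s; exact le_rfl]

lemma le_Q {w : ℕ → ℝ} (hw : ∀ s, 0 ≤ w s) (a : ℕ → ℕ) {n s : ℕ} (h : s < n) :
    w s ≤ Q w a n (a s) := by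
  unfold Q
  have := Finset.single_le_sum (f := fun t => if a t = a s then w t else 0)
    (fun t _ => by
      show 0 ≤ if a t = a s then w t else 0
      split_ifs <;> [exact hw t; exact le_rfl]) (Finset.mem_range.2 h)
  simpa using this

/-- The (unnormalised) online entropy. -/
noncomputable def E (w : ℕ → ℝ) (a : ℕ → ℕ) (n : ℕ) : ℝ :=
  ∑ s ∈ range n, w s * (-Real.log (Q w a n (a s)))

lemma aux_log {x w : ℝ} (hx : 0 ≤ x) (hw : 0 < w) :
    x * (Real.log (x + w) - Real.log x) ≤ w := by
  rcases hx.eq_or_lt with h0 | h0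
  · rw [← h0]; simp; exact hw.le
  · have h1 : Real.log (x + w) - Real.log x = Real.log ((x + w) / x) := by
      rw [Real.log_div (by positivity) (by positivity)]
    have h2 : Real.log ((x + w) / x) ≤ (x + w) / x - 1 :=
      Real.log_le_sub_one_of_pos (by positivity)
    rw [h1]
    calc x * Real.log ((x + w) / x) ≤ x * ((x + w) / x - 1) :=
          mul_le_mul_of_nonneg_left h2 hx
      _ = w := by field_simp; ring

/-- One step of the potential argument. -/
lemma E_step {w : ℕ → ℝ} (hw : ∀ s, 0 ≤ w s) (a : ℕ → ℕ) (n : ℕ) :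
    E w a n + w n * (-Real.log (Q w a n (a n) + w n)) ≤ E w a (n + 1) + w n := by
  rcases (hw n).eq_or_lt with h0 | h0
  · have : ∀ c, Q w a (n + 1) c = Q w a n c := by
      intro c; rw [Q_succ, ← h0]; simp
    unfold E
    rw [Finset.sum_range_succ]
    simp [this, ← h0]
  · have hE : E w a (n + 1) = ∑ s ∈ range n, w s * (-Real.log (Q w a (n + 1) (a s)))
        + w n * (-Real.log (Q w a n (a n) + w n)) := by
      unfold E
      rw [Finset.sum_range_succ]
      congr 3
      rw [Q_succ]; simp
    rw [hE]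
    have hs : ∀ s ∈ range n, w s * (-Real.log (Q w a n (a s)))
        ≤ w s * (-Real.log (Q w a (n + 1) (a s)))
          + (if a s = a n then w s else 0) *
            (Real.log (Q w a n (a n) + w n) - Real.log (Q w a n (a n))) := by
      intro s _
      by_cases hsn : a s = a n
      · rw [if_pos hsn, hsn, Q_succ]
        simp only [if_true]
        have : w s * -Real.log (Q w a n (a n)) = w s * -Real.log (Q w a n (a n) + w n) +
          w s * (Real.log (Q w a n (a n) + w n) - Real.log (Q w a n (a n))) := by ring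
        rw [this]
      · have hns : ¬ a n = a s := fun h => hsn h.symm
        rw [if_neg hsn, Q_succ, if_neg hns]
        simp
    have hsum := Finset.sum_le_sum hs
    rw [Finset.sum_add_distrib, ← Finset.sum_mul] at hsum
    have hx : ∑ s ∈ range n, (if a s = a n then w s else 0) = Q w a n (a n) := rfl
    rw [hx] at hsum
    have := aux_log (Q_nonneg hw a n (a n)) h0
    have hEn : E w a n = ∑ s ∈ range n, w s * (-Real.log (Q w a n (a s))) := rfl
    rw [hEn]
    linarith

/-- Upper bound for the average profile (used for the negative coefficients). -/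
lemma upper {w h : ℕ → ℝ} (hw : ∀ s, 0 ≤ w s) (a : ℕ → ℕ) (n : ℕ)
    (hh : ∀ s < n, 0 < w s → Q w a s (a s) + w s ≤ 2 * (1 / 2 : ℝ) ^ (h s)) :
    ∑ s ∈ range n, w s * (Real.log 2 * (h s - 1)) ≤ E w a n + ∑ s ∈ range n, w s := by
  induction n with
  | zero => simp [E]
  | succ n ih =>
    have ih' := ih fun s hs => hh s (Nat.lt_succ_of_lt hs)
    rw [Finset.sum_range_succ, Finset.sum_range_succ]
    have hst := E_step hw a n
    have key : w n * (Real.log 2 * (h n - 1)) ≤ w n * (-Real.log (Q w a n (a n) + w n)) := by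
      rcases (hw n).eq_or_lt with h0 | h0
      · simp [← h0]
      · refine mul_le_mul_of_nonneg_left ?_ (hw n)
        have h1 := hh n (Nat.lt_succ_self n) h0
        have hpos : 0 < Q w a n (a n) + w n := by
          have := Q_nonneg hw a n (a n); linarith
        have h2 := Real.log_le_log hpos h1
        rw [Real.log_mul (by norm_num) (by positivity),
          Real.log_rpow (by norm_num), one_div, Real.log_inv] at h2
        nlinarith
    linarith

/-- Lower bound for the average profile (Gibbs; used for the positive coefficients). -/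
lemma lower {w h : ℕ → ℝ} (hw : ∀ s, 0 ≤ w s) (a : ℕ → ℕ) (n : ℕ) (K : ℕ → ℕ)
    (hK : ∀ T : Finset ℕ, ∑ c ∈ T, (1 / 2 : ℝ) ^ (K c) ≤ 1)
    (hh : ∀ s < n, 0 < w s → (K (a s) : ℝ) ≤ h s) (hκ : 0 < ∑ s ∈ range n, w s) :
    E w a n + (∑ s ∈ range n, w s) * Real.log (∑ s ∈ range n, w s)
      ≤ ∑ s ∈ range n, w s * (Real.log 2 * h s) := by
  set κ := ∑ s ∈ range n, w s with hκdef
  have hterm : ∀ s ∈ range n, w s * (-Real.log (Q w a n (a s))) + w s * Real.log κ
      - w s * (Real.log 2 * h s)
      ≤ w s * (κ * (1 / 2 : ℝ) ^ (K (a s)) / Q w a n (a s)) - w s := by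
    intro s hs
    have hs' := Finset.mem_range.1 hs
    rcases (hw s).eq_or_lt with h0 | h0
    · simp [← h0]
    · have hQ : 0 < Q w a n (a s) := lt_of_lt_of_le h0 (le_Q hw a hs')
      have hk := hh s hs' h0
      have h2 : (0 : ℝ) < (1 / 2 : ℝ) ^ (K (a s)) := by positivity
      have h1 := Real.log_le_sub_one_of_pos
        (show 0 < κ * (1 / 2 : ℝ) ^ (K (a s)) / Q w a n (a s) by positivity)
      rw [Real.log_div (by positivity) (by positivity), Real.log_mul (by positivity)
        (by positivity), Real.log_pow, one_div, Real.log_inv] at h1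
      have hl2 : 0 < Real.log 2 := Real.log_pos (by norm_num)
      have h3 : Real.log 2 * (K (a s) : ℝ) ≤ Real.log 2 * h s :=
        mul_le_mul_of_nonneg_left hk hl2.le
      have h4 : -Real.log (Q w a n (a s)) + Real.log κ - Real.log 2 * h s
          ≤ κ * (1 / 2 : ℝ) ^ (K (a s)) / Q w a n (a s) - 1 := by
        rw [one_div]
        linarith
      calc w s * (-Real.log (Q w a n (a s))) + w s * Real.log κ - w s * (Real.log 2 * h s)
          = w s * (-Real.log (Q w a n (a s)) + Real.log κ - Real.log 2 * h s) := by ring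
        _ ≤ w s * (κ * (1 / 2 : ℝ) ^ (K (a s)) / Q w a n (a s) - 1) :=
            mul_le_mul_of_nonneg_left h4 h0.le
        _ = w s * (κ * (1 / 2 : ℝ) ^ (K (a s)) / Q w a n (a s)) - w s := by ring
  have hbig : ∑ s ∈ range n, w s * (κ * (1 / 2 : ℝ) ^ (K (a s)) / Q w a n (a s)) ≤ κ := by
    rw [← Finset.sum_fiberwise_of_maps_to (s := range n) (t := (range n).image a) (g := a)
      (fun s hs => Finset.mem_image_of_mem a hs)]
    calc ∑ c ∈ (range n).image a, ∑ s ∈ (range n).filter (fun s => a s = c),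
          w s * (κ * (1 / 2 : ℝ) ^ (K (a s)) / Q w a n (a s))
        ≤ ∑ c ∈ (range n).image a, κ * (1 / 2 : ℝ) ^ (K c) := by
          refine Finset.sum_le_sum fun c _ => ?_
          have : ∑ s ∈ (range n).filter (fun s => a s = c),
              w s * (κ * (1 / 2 : ℝ) ^ (K (a s)) / Q w a n (a s))
              = Q w a n c * (κ * (1 / 2 : ℝ) ^ (K c) / Q w a n c) := by
            have e : ∀ s ∈ (range n).filter (fun s => a s = c),
                w s * (κ * (1 / 2 : ℝ) ^ (K (a s)) / Q w a n (a s))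
                = w s * (κ * (1 / 2 : ℝ) ^ (K c) / Q w a n c) := by
              intro s hs
              rw [(Finset.mem_filter.1 hs).2]
            rw [Finset.sum_congr rfl e, ← Finset.sum_mul]
            congr 1
            unfold Q
            rw [Finset.sum_filter]
          rw [this]
          rcases (Q_nonneg hw a n c).eq_or_lt with h0 | h0
          · rw [← h0]; simp; positivity
          · apply le_of_eq; field_simp
      _ = κ * ∑ c ∈ (range n).image a, (1 / 2 : ℝ) ^ (K c) := by rw [Finset.mul_sum]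
      _ ≤ κ * 1 := mul_le_mul_of_nonneg_left (hK _) hκ.le
      _ = κ := mul_one κ
  have hsum := Finset.sum_le_sum hterm
  rw [Finset.sum_sub_distrib, Finset.sum_add_distrib, ← Finset.sum_mul,
    Finset.sum_sub_distrib] at hsum
  have hEn : E w a n = ∑ s ∈ range n, w s * (-Real.log (Q w a n (a s))) := rfl
  rw [hEn]
  linarith

/-- The cost bound. `valid` is the (homogeneous) information inequality. -/
theorem cost_bound {N : ℕ} (lam : Fin N → ℝ) {w : ℕ → ℝ} {h : Fin N → ℕ → ℝ}
    (hw : ∀ s, 0 ≤ w s) (a : Fin N → ℕ → ℕ) (n : ℕ) (K : ℕ → ℕ)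
    (hK : ∀ T : Finset ℕ, ∑ c ∈ T, (1 / 2 : ℝ) ^ (K c) ≤ 1)
    (hKh : ∀ i, ∀ s < n, 0 < w s → (K (a i s) : ℝ) ≤ h i s)
    (hQh : ∀ i, ∀ s < n, 0 < w s → Q w (a i) s (a i s) + w s ≤ 2 * (1 / 2 : ℝ) ^ (h i s))
    (L : ℝ) (hL0 : 0 < L) (hL : ∀ s < n, 0 < w s → ∑ i, lam i * h i s ≤ -L)
    (hκ : 0 < ∑ s ∈ range n, w s)
    (valid : 0 ≤ ∑ i, lam i * (E w (a i) n +
      (∑ s ∈ range n, w s) * Real.log (∑ s ∈ range n, w s)))
    (Λ : ℝ) (hΛ : ∑ i, |lam i| ≤ Λ) :
    Real.log (∑ s ∈ range n, w s) ≤ 1 + Real.log 2 - L * Real.log 2 / Λ := by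
  set κ := ∑ s ∈ range n, w s with hκdef
  have hl2 : 0 < Real.log 2 := Real.log_pos (by norm_num)
  -- averaged violation
  have havg : ∑ i, lam i * ∑ s ∈ range n, w s * (Real.log 2 * h i s) ≤ -(L * Real.log 2 * κ) := by
    have e : ∑ i, lam i * ∑ s ∈ range n, w s * (Real.log 2 * h i s)
        = ∑ s ∈ range n, w s * (Real.log 2 * ∑ i, lam i * h i s) := by
      simp_rw [Finset.mul_sum]
      rw [Finset.sum_comm]
      refine Finset.sum_congr rfl fun s _ => Finset.sum_congr rfl fun i _ => ?_
      ring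
    rw [e]
    have : ∀ s ∈ range n, w s * (Real.log 2 * ∑ i, lam i * h i s)
        ≤ w s * (Real.log 2 * (-L)) := by
      intro s hs
      rcases (hw s).eq_or_lt with h0 | h0
      · simp [← h0]
      · exact mul_le_mul_of_nonneg_left
          (mul_le_mul_of_nonneg_left (hL s (Finset.mem_range.1 hs) h0) hl2.le) h0.le
    refine (Finset.sum_le_sum this).trans ?_
    rw [← Finset.sum_mul]
    apply le_of_eq; ring
  -- termwise comparison
  have hterm : ∀ i, lam i * (E w (a i) n + κ * Real.log κ)
      + max 0 (-lam i) * (κ * (Real.log κ - (1 + Real.log 2)))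
      ≤ lam i * ∑ s ∈ range n, w s * (Real.log 2 * h i s) := by
    intro i
    have hlow := lower hw (a i) n K hK (hKh i) hκ
    have hup := upper hw (a i) n (hQh i)
    have hup' : ∑ s ∈ range n, w s * (Real.log 2 * h i s)
        ≤ E w (a i) n + κ * (1 + Real.log 2) := by
      have e : ∑ s ∈ range n, w s * (Real.log 2 * (h i s - 1))
          = ∑ s ∈ range n, w s * (Real.log 2 * h i s) - Real.log 2 * κ := by
        rw [hκdef, Finset.mul_sum, ← Finset.sum_sub_distrib]
        refine Finset.sum_congr rfl fun s _ => ?_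
        ring
      rw [e] at hup
      linarith
    rcases le_total 0 (lam i) with hl | hl
    · rw [max_eq_left (by linarith)]
      have h1 : lam i * (E w (a i) n + κ * Real.log κ)
          ≤ lam i * ∑ s ∈ range n, w s * (Real.log 2 * h i s) :=
        mul_le_mul_of_nonneg_left hlow hl
      linarith
    · rw [max_eq_right (by linarith)]
      have h1 := mul_le_mul_of_nonpos_left hup' hl
      nlinarith
  have hsum := Finset.sum_le_sum fun i (_ : i ∈ Finset.univ) => hterm i
  rw [Finset.sum_add_distrib, ← Finset.sum_mul] at hsum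
  set M := ∑ i, max 0 (-lam i) with hM
  have hM0 : 0 ≤ M := Finset.sum_nonneg fun i _ => le_max_left _ _
  have hMΛ : M ≤ Λ := by
    refine le_trans (Finset.sum_le_sum fun i _ => ?_) hΛ
    exact max_le (abs_nonneg _) (neg_le_abs _)
  have h5 : M * (κ * (Real.log κ - (1 + Real.log 2))) ≤ -(L * Real.log 2 * κ) := by
    linarith
  have h6 : M * (Real.log κ - (1 + Real.log 2)) ≤ -(L * Real.log 2) := by
    by_contra hcon
    have hcon' := lt_of_not_ge hcon
    have := mul_lt_mul_of_pos_right hcon' hκ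
    nlinarith
  have hMpos : 0 < M := by
    rcases hM0.eq_or_lt with h0 | h0
    · exfalso
      rw [← h0] at h6
      have : 0 < L * Real.log 2 := mul_pos hL0 hl2
      linarith
    · exact h0
  have h7 : Real.log κ - (1 + Real.log 2) ≤ -(L * Real.log 2) / M := by
    rw [le_div_iff₀ hMpos]
    linarith
  have h8 : -(L * Real.log 2) / M = -(L * Real.log 2 / M) := by ring
  have h9 : L * Real.log 2 / Λ ≤ L * Real.log 2 / M :=
    div_le_div_of_nonneg_left (mul_pos hL0 hl2).le hMpos hMΛ
  rw [h8] at h7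
  linarith

end Pool.Agent.W_MP_fd63cb_lc
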