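import Mathlib
set_option autoImplicit false
namespace Pool.Agent.W_MP_fd63cb_lc

theorem shannon5 (h : Finset (Fin 5) → ℝ)
    (hs : ∀ S T, h (S ∪ T) + h (S ∩ T) ≤ h S + h T) (_h0 : h ∅ = 0) :
    h {2} + h {3} - h {2, 3} ≤
      (h {0, 2} + h {0, 3} - h {0, 2, 3} - h {0}) + (h {1, 2} + h {1, 3} - h {1, 2, 3} - h {1})
      + (h {0} + h {1} - h {0, 1}) + (h {2, 4} + h {3, 4} - h {2, 3, 4} - h {4})
      + (h {2, 3} + h {3, 4} - h {2, 3, 4} - h {3}) + (h {2, 3} + h {2, 4} - h {2, 3, 4} - h {2})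
      + 3 * (h {2, 3, 4} + h {0, 1, 2, 3} - h {0, 1, 2, 3, 4} - h {2, 3}) := by
  have t0 : h {0, 1} + h ∅ ≤ h {0} + h {1} := by
    have := hs {0} {1}
    rwa [show (({0} : Finset (Fin 5)) ∪ {1}) = {0, 1} by decide, show (({0} : Finset (Fin 5)) ∩ {1}) = ∅ by decide] at this
  have t1 : h {0, 1, 2} + h {2} ≤ h {0, 2} + h {1, 2} := by
    have := hs {0, 2} {1, 2}
    rwa [show (({0, 2} : Finset (Fin 5)) ∪ {1, 2}) = {0, 1, 2} by decide, show (({0, 2} : Finset (Fin 5)) ∩ {1, 2}) = {2} by decide] at this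
  have t2 : h {0, 1, 3} + h {3} ≤ h {0, 3} + h {1, 3} := by
    have := hs {0, 3} {1, 3}
    rwa [show (({0, 3} : Finset (Fin 5)) ∪ {1, 3}) = {0, 1, 3} by decide, show (({0, 3} : Finset (Fin 5)) ∩ {1, 3}) = {3} by decide] at this
  have t3 : h {0, 1, 4} + h {4} ≤ h {0, 4} + h {1, 4} := by
    have := hs {0, 4} {1, 4}
    rwa [show (({0, 4} : Finset (Fin 5)) ∪ {1, 4}) = {0, 1, 4} by decide, show (({0, 4} : Finset (Fin 5)) ∩ {1, 4}) = {4} by decide] at this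
  have t4 : h {0, 1, 2, 3} + h {2, 3} ≤ h {0, 2, 3} + h {1, 2, 3} := by
    have := hs {0, 2, 3} {1, 2, 3}
    rwa [show (({0, 2, 3} : Finset (Fin 5)) ∪ {1, 2, 3}) = {0, 1, 2, 3} by decide, show (({0, 2, 3} : Finset (Fin 5)) ∩ {1, 2, 3}) = {2, 3} by decide] at this
  have t5 : h {0, 1, 2, 4} + h {2, 4} ≤ h {0, 2, 4} + h {1, 2, 4} := by
    have := hs {0, 2, 4} {1, 2, 4}
    rwa [show (({0, 2, 4} : Finset (Fin 5)) ∪ {1, 2, 4}) = {0, 1, 2, 4} by decide, show (({0, 2, 4} : Finset (Fin 5)) ∩ {1, 2, 4}) = {2, 4} by decide] at this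
  have t6 : h {0, 1, 3, 4} + h {3, 4} ≤ h {0, 3, 4} + h {1, 3, 4} := by
    have := hs {0, 3, 4} {1, 3, 4}
    rwa [show (({0, 3, 4} : Finset (Fin 5)) ∪ {1, 3, 4}) = {0, 1, 3, 4} by decide, show (({0, 3, 4} : Finset (Fin 5)) ∩ {1, 3, 4}) = {3, 4} by decide] at this
  have t7 : h {0, 1, 2, 3, 4} + h {2, 3, 4} ≤ h {0, 2, 3, 4} + h {1, 2, 3, 4} := by
    have := hs {0, 2, 3, 4} {1, 2, 3, 4}
    rwa [show (({0, 2, 3, 4} : Finset (Fin 5)) ∪ {1, 2, 3, 4}) = {0, 1, 2, 3, 4} by decide, show (({0, 2, 3, 4} : Finset (Fin 5)) ∩ {1, 2, 3, 4}) = {2, 3, 4} by decide] at this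
  have t8 : h {0, 2} + h ∅ ≤ h {0} + h {2} := by
    have := hs {0} {2}
    rwa [show (({0} : Finset (Fin 5)) ∪ {2}) = {0, 2} by decide, show (({0} : Finset (Fin 5)) ∩ {2}) = ∅ by decide] at this
  have t9 : h {0, 1, 2} + h {1} ≤ h {0, 1} + h {1, 2} := by
    have := hs {0, 1} {1, 2}
    rwa [show (({0, 1} : Finset (Fin 5)) ∪ {1, 2}) = {0, 1, 2} by decide, show (({0, 1} : Finset (Fin 5)) ∩ {1, 2}) = {1} by decide] at this
  have t10 : h {0, 2, 3} + h {3} ≤ h {0, 3} + h {2, 3} := by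
    have := hs {0, 3} {2, 3}
    rwa [show (({0, 3} : Finset (Fin 5)) ∪ {2, 3}) = {0, 2, 3} by decide, show (({0, 3} : Finset (Fin 5)) ∩ {2, 3}) = {3} by decide] at this
  have t11 : h {0, 2, 4} + h {4} ≤ h {0, 4} + h {2, 4} := by
    have := hs {0, 4} {2, 4}
    rwa [show (({0, 4} : Finset (Fin 5)) ∪ {2, 4}) = {0, 2, 4} by decide, show (({0, 4} : Finset (Fin 5)) ∩ {2, 4}) = {4} by decide] at this
  have t12 : h {0, 1, 2, 3} + h {1, 3} ≤ h {0, 1, 3} + h {1, 2, 3} := by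
    have := hs {0, 1, 3} {1, 2, 3}
    rwa [show (({0, 1, 3} : Finset (Fin 5)) ∪ {1, 2, 3}) = {0, 1, 2, 3} by decide, show (({0, 1, 3} : Finset (Fin 5)) ∩ {1, 2, 3}) = {1, 3} by decide] at this
  have t13 : h {0, 1, 2, 4} + h {1, 4} ≤ h {0, 1, 4} + h {1, 2, 4} := by
    have := hs {0, 1, 4} {1, 2, 4}
    rwa [show (({0, 1, 4} : Finset (Fin 5)) ∪ {1, 2, 4}) = {0, 1, 2, 4} by decide, show (({0, 1, 4} : Finset (Fin 5)) ∩ {1, 2, 4}) = {1, 4} by decide] at this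
  have t14 : h {0, 2, 3, 4} + h {3, 4} ≤ h {0, 3, 4} + h {2, 3, 4} := by
    have := hs {0, 3, 4} {2, 3, 4}
    rwa [show (({0, 3, 4} : Finset (Fin 5)) ∪ {2, 3, 4}) = {0, 2, 3, 4} by decide, show (({0, 3, 4} : Finset (Fin 5)) ∩ {2, 3, 4}) = {3, 4} by decide] at this
  have t15 : h {0, 1, 2, 3, 4} + h {1, 3, 4} ≤ h {0, 1, 3, 4} + h {1, 2, 3, 4} := by
    have := hs {0, 1, 3, 4} {1, 2, 3, 4}
    rwa [show (({0, 1, 3, 4} : Finset (Fin 5)) ∪ {1, 2, 3, 4}) = {0, 1, 2, 3, 4} by decide, show (({0, 1, 3, 4} : Finset (Fin 5)) ∩ {1, 2, 3, 4}) = {1, 3, 4} by decide] at this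
  have t16 : h {0, 3} + h ∅ ≤ h {0} + h {3} := by
    have := hs {0} {3}
    rwa [show (({0} : Finset (Fin 5)) ∪ {3}) = {0, 3} by decide, show (({0} : Finset (Fin 5)) ∩ {3}) = ∅ by decide] at this
  have t17 : h {0, 1, 3} + h {1} ≤ h {0, 1} + h {1, 3} := by
    have := hs {0, 1} {1, 3}
    rwa [show (({0, 1} : Finset (Fin 5)) ∪ {1, 3}) = {0, 1, 3} by decide, show (({0, 1} : Finset (Fin 5)) ∩ {1, 3}) = {1} by decide] at this
  have t18 : h {0, 2, 3} + h {2} ≤ h {0, 2} + h {2, 3} := by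
    have := hs {0, 2} {2, 3}
    rwa [show (({0, 2} : Finset (Fin 5)) ∪ {2, 3}) = {0, 2, 3} by decide, show (({0, 2} : Finset (Fin 5)) ∩ {2, 3}) = {2} by decide] at this
  have t19 : h {0, 3, 4} + h {4} ≤ h {0, 4} + h {3, 4} := by
    have := hs {0, 4} {3, 4}
    rwa [show (({0, 4} : Finset (Fin 5)) ∪ {3, 4}) = {0, 3, 4} by decide, show (({0, 4} : Finset (Fin 5)) ∩ {3, 4}) = {4} by decide] at this
  have t20 : h {0, 1, 2, 3} + h {1, 2} ≤ h {0, 1, 2} + h {1, 2, 3} := by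
    have := hs {0, 1, 2} {1, 2, 3}
    rwa [show (({0, 1, 2} : Finset (Fin 5)) ∪ {1, 2, 3}) = {0, 1, 2, 3} by decide, show (({0, 1, 2} : Finset (Fin 5)) ∩ {1, 2, 3}) = {1, 2} by decide] at this
  have t21 : h {0, 1, 3, 4} + h {1, 4} ≤ h {0, 1, 4} + h {1, 3, 4} := by
    have := hs {0, 1, 4} {1, 3, 4}
    rwa [show (({0, 1, 4} : Finset (Fin 5)) ∪ {1, 3, 4}) = {0, 1, 3, 4} by decide, show (({0, 1, 4} : Finset (Fin 5)) ∩ {1, 3, 4}) = {1, 4} by decide] at this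
  have t22 : h {0, 2, 3, 4} + h {2, 4} ≤ h {0, 2, 4} + h {2, 3, 4} := by
    have := hs {0, 2, 4} {2, 3, 4}
    rwa [show (({0, 2, 4} : Finset (Fin 5)) ∪ {2, 3, 4}) = {0, 2, 3, 4} by decide, show (({0, 2, 4} : Finset (Fin 5)) ∩ {2, 3, 4}) = {2, 4} by decide] at this
  have t23 : h {0, 1, 2, 3, 4} + h {1, 2, 4} ≤ h {0, 1, 2, 4} + h {1, 2, 3, 4} := by
    have := hs {0, 1, 2, 4} {1, 2, 3, 4}
    rwa [show (({0, 1, 2, 4} : Finset (Fin 5)) ∪ {1, 2, 3, 4}) = {0, 1, 2, 3, 4} by decide, show (({0, 1, 2, 4} : Finset (Fin 5)) ∩ {1, 2, 3, 4}) = {1, 2, 4} by decide] at this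
  have t24 : h {0, 4} + h ∅ ≤ h {0} + h {4} := by
    have := hs {0} {4}
    rwa [show (({0} : Finset (Fin 5)) ∪ {4}) = {0, 4} by decide, show (({0} : Finset (Fin 5)) ∩ {4}) = ∅ by decide] at this
  have t25 : h {0, 1, 4} + h {1} ≤ h {0, 1} + h {1, 4} := by
    have := hs {0, 1} {1, 4}
    rwa [show (({0, 1} : Finset (Fin 5)) ∪ {1, 4}) = {0, 1, 4} by decide, show (({0, 1} : Finset (Fin 5)) ∩ {1, 4}) = {1} by decide] at this
  have t26 : h {0, 2, 4} + h {2} ≤ h {0, 2} + h {2, 4} := by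
    have := hs {0, 2} {2, 4}
    rwa [show (({0, 2} : Finset (Fin 5)) ∪ {2, 4}) = {0, 2, 4} by decide, show (({0, 2} : Finset (Fin 5)) ∩ {2, 4}) = {2} by decide] at this
  have t27 : h {0, 3, 4} + h {3} ≤ h {0, 3} + h {3, 4} := by
    have := hs {0, 3} {3, 4}
    rwa [show (({0, 3} : Finset (Fin 5)) ∪ {3, 4}) = {0, 3, 4} by decide, show (({0, 3} : Finset (Fin 5)) ∩ {3, 4}) = {3} by decide] at this
  have t28 : h {0, 1, 2, 4} + h {1, 2} ≤ h {0, 1, 2} + h {1, 2, 4} := by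
    have := hs {0, 1, 2} {1, 2, 4}
    rwa [show (({0, 1, 2} : Finset (Fin 5)) ∪ {1, 2, 4}) = {0, 1, 2, 4} by decide, show (({0, 1, 2} : Finset (Fin 5)) ∩ {1, 2, 4}) = {1, 2} by decide] at this
  have t29 : h {0, 1, 3, 4} + h {1, 3} ≤ h {0, 1, 3} + h {1, 3, 4} := by
    have := hs {0, 1, 3} {1, 3, 4}
    rwa [show (({0, 1, 3} : Finset (Fin 5)) ∪ {1, 3, 4}) = {0, 1, 3, 4} by decide, show (({0, 1, 3} : Finset (Fin 5)) ∩ {1, 3, 4}) = {1, 3} by decide] at this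
  have t30 : h {0, 2, 3, 4} + h {2, 3} ≤ h {0, 2, 3} + h {2, 3, 4} := by
    have := hs {0, 2, 3} {2, 3, 4}
    rwa [show (({0, 2, 3} : Finset (Fin 5)) ∪ {2, 3, 4}) = {0, 2, 3, 4} by decide, show (({0, 2, 3} : Finset (Fin 5)) ∩ {2, 3, 4}) = {2, 3} by decide] at this
  have t31 : h {0, 1, 2, 3, 4} + h {1, 2, 3} ≤ h {0, 1, 2, 3} + h {1, 2, 3, 4} := by
    have := hs {0, 1, 2, 3} {1, 2, 3, 4}
    rwa [show (({0, 1, 2, 3} : Finset (Fin 5)) ∪ {1, 2, 3, 4}) = {0, 1, 2, 3, 4} by decide, show (({0, 1, 2, 3} : Finset (Fin 5)) ∩ {1, 2, 3, 4}) = {1, 2, 3} by decide] at this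
  have t32 : h {1, 2} + h ∅ ≤ h {1} + h {2} := by
    have := hs {1} {2}
    rwa [show (({1} : Finset (Fin 5)) ∪ {2}) = {1, 2} by decide, show (({1} : Finset (Fin 5)) ∩ {2}) = ∅ by decide] at this
  have t33 : h {0, 1, 2} + h {0} ≤ h {0, 1} + h {0, 2} := by
    have := hs {0, 1} {0, 2}
    rwa [show (({0, 1} : Finset (Fin 5)) ∪ {0, 2}) = {0, 1, 2} by decide, show (({0, 1} : Finset (Fin 5)) ∩ {0, 2}) = {0} by decide] at this
  have t34 : h {1, 2, 3} + h {3} ≤ h {1, 3} + h {2, 3} := by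
    have := hs {1, 3} {2, 3}
    rwa [show (({1, 3} : Finset (Fin 5)) ∪ {2, 3}) = {1, 2, 3} by decide, show (({1, 3} : Finset (Fin 5)) ∩ {2, 3}) = {3} by decide] at this
  have t35 : h {1, 2, 4} + h {4} ≤ h {1, 4} + h {2, 4} := by
    have := hs {1, 4} {2, 4}
    rwa [show (({1, 4} : Finset (Fin 5)) ∪ {2, 4}) = {1, 2, 4} by decide, show (({1, 4} : Finset (Fin 5)) ∩ {2, 4}) = {4} by decide] at this
  have t36 : h {0, 1, 2, 3} + h {0, 3} ≤ h {0, 1, 3} + h {0, 2, 3} := by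
    have := hs {0, 1, 3} {0, 2, 3}
    rwa [show (({0, 1, 3} : Finset (Fin 5)) ∪ {0, 2, 3}) = {0, 1, 2, 3} by decide, show (({0, 1, 3} : Finset (Fin 5)) ∩ {0, 2, 3}) = {0, 3} by decide] at this
  have t37 : h {0, 1, 2, 4} + h {0, 4} ≤ h {0, 1, 4} + h {0, 2, 4} := by
    have := hs {0, 1, 4} {0, 2, 4}
    rwa [show (({0, 1, 4} : Finset (Fin 5)) ∪ {0, 2, 4}) = {0, 1, 2, 4} by decide, show (({0, 1, 4} : Finset (Fin 5)) ∩ {0, 2, 4}) = {0, 4} by decide] at this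
  have t38 : h {1, 2, 3, 4} + h {3, 4} ≤ h {1, 3, 4} + h {2, 3, 4} := by
    have := hs {1, 3, 4} {2, 3, 4}
    rwa [show (({1, 3, 4} : Finset (Fin 5)) ∪ {2, 3, 4}) = {1, 2, 3, 4} by decide, show (({1, 3, 4} : Finset (Fin 5)) ∩ {2, 3, 4}) = {3, 4} by decide] at this
  have t39 : h {0, 1, 2, 3, 4} + h {0, 3, 4} ≤ h {0, 1, 3, 4} + h {0, 2, 3, 4} := by
    have := hs {0, 1, 3, 4} {0, 2, 3, 4}
    rwa [show (({0, 1, 3, 4} : Finset (Fin 5)) ∪ {0, 2, 3, 4}) = {0, 1, 2, 3, 4} by decide, show (({0, 1, 3, 4} : Finset (Fin 5)) ∩ {0, 2, 3, 4}) = {0, 3, 4} by decide] at this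
  have t40 : h {1, 3} + h ∅ ≤ h {1} + h {3} := by
    have := hs {1} {3}
    rwa [show (({1} : Finset (Fin 5)) ∪ {3}) = {1, 3} by decide, show (({1} : Finset (Fin 5)) ∩ {3}) = ∅ by decide] at this
  have t41 : h {0, 1, 3} + h {0} ≤ h {0, 1} + h {0, 3} := by
    have := hs {0, 1} {0, 3}
    rwa [show (({0, 1} : Finset (Fin 5)) ∪ {0, 3}) = {0, 1, 3} by decide, show (({0, 1} : Finset (Fin 5)) ∩ {0, 3}) = {0} by decide] at this
  have t42 : h {1, 2, 3} + h {2} ≤ h {1, 2} + h {2, 3} := by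
    have := hs {1, 2} {2, 3}
    rwa [show (({1, 2} : Finset (Fin 5)) ∪ {2, 3}) = {1, 2, 3} by decide, show (({1, 2} : Finset (Fin 5)) ∩ {2, 3}) = {2} by decide] at this
  have t43 : h {1, 3, 4} + h {4} ≤ h {1, 4} + h {3, 4} := by
    have := hs {1, 4} {3, 4}
    rwa [show (({1, 4} : Finset (Fin 5)) ∪ {3, 4}) = {1, 3, 4} by decide, show (({1, 4} : Finset (Fin 5)) ∩ {3, 4}) = {4} by decide] at this
  have t44 : h {0, 1, 2, 3} + h {0, 2} ≤ h {0, 1, 2} + h {0, 2, 3} := by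
    have := hs {0, 1, 2} {0, 2, 3}
    rwa [show (({0, 1, 2} : Finset (Fin 5)) ∪ {0, 2, 3}) = {0, 1, 2, 3} by decide, show (({0, 1, 2} : Finset (Fin 5)) ∩ {0, 2, 3}) = {0, 2} by decide] at this
  have t45 : h {0, 1, 3, 4} + h {0, 4} ≤ h {0, 1, 4} + h {0, 3, 4} := by
    have := hs {0, 1, 4} {0, 3, 4}
    rwa [show (({0, 1, 4} : Finset (Fin 5)) ∪ {0, 3, 4}) = {0, 1, 3, 4} by decide, show (({0, 1, 4} : Finset (Fin 5)) ∩ {0, 3, 4}) = {0, 4} by decide] at this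
  have t46 : h {1, 2, 3, 4} + h {2, 4} ≤ h {1, 2, 4} + h {2, 3, 4} := by
    have := hs {1, 2, 4} {2, 3, 4}
    rwa [show (({1, 2, 4} : Finset (Fin 5)) ∪ {2, 3, 4}) = {1, 2, 3, 4} by decide, show (({1, 2, 4} : Finset (Fin 5)) ∩ {2, 3, 4}) = {2, 4} by decide] at this
  have t47 : h {0, 1, 2, 3, 4} + h {0, 2, 4} ≤ h {0, 1, 2, 4} + h {0, 2, 3, 4} := by
    have := hs {0, 1, 2, 4} {0, 2, 3, 4}
    rwa [show (({0, 1, 2, 4} : Finset (Fin 5)) ∪ {0, 2, 3, 4}) = {0, 1, 2, 3, 4} by decide, show (({0, 1, 2, 4} : Finset (Fin 5)) ∩ {0, 2, 3, 4}) = {0, 2, 4} by decide] at this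
  have t48 : h {1, 4} + h ∅ ≤ h {1} + h {4} := by
    have := hs {1} {4}
    rwa [show (({1} : Finset (Fin 5)) ∪ {4}) = {1, 4} by decide, show (({1} : Finset (Fin 5)) ∩ {4}) = ∅ by decide] at this
  have t49 : h {0, 1, 4} + h {0} ≤ h {0, 1} + h {0, 4} := by
    have := hs {0, 1} {0, 4}
    rwa [show (({0, 1} : Finset (Fin 5)) ∪ {0, 4}) = {0, 1, 4} by decide, show (({0, 1} : Finset (Fin 5)) ∩ {0, 4}) = {0} by decide] at this
  have t50 : h {1, 2, 4} + h {2} ≤ h {1, 2} + h {2, 4} := by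
    have := hs {1, 2} {2, 4}
    rwa [show (({1, 2} : Finset (Fin 5)) ∪ {2, 4}) = {1, 2, 4} by decide, show (({1, 2} : Finset (Fin 5)) ∩ {2, 4}) = {2} by decide] at this
  have t51 : h {1, 3, 4} + h {3} ≤ h {1, 3} + h {3, 4} := by
    have := hs {1, 3} {3, 4}
    rwa [show (({1, 3} : Finset (Fin 5)) ∪ {3, 4}) = {1, 3, 4} by decide, show (({1, 3} : Finset (Fin 5)) ∩ {3, 4}) = {3} by decide] at this
  have t52 : h {0, 1, 2, 4} + h {0, 2} ≤ h {0, 1, 2} + h {0, 2, 4} := by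
    have := hs {0, 1, 2} {0, 2, 4}
    rwa [show (({0, 1, 2} : Finset (Fin 5)) ∪ {0, 2, 4}) = {0, 1, 2, 4} by decide, show (({0, 1, 2} : Finset (Fin 5)) ∩ {0, 2, 4}) = {0, 2} by decide] at this
  have t53 : h {0, 1, 3, 4} + h {0, 3} ≤ h {0, 1, 3} + h {0, 3, 4} := by
    have := hs {0, 1, 3} {0, 3, 4}
    rwa [show (({0, 1, 3} : Finset (Fin 5)) ∪ {0, 3, 4}) = {0, 1, 3, 4} by decide, show (({0, 1, 3} : Finset (Fin 5)) ∩ {0, 3, 4}) = {0, 3} by decide] at this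
  have t54 : h {1, 2, 3, 4} + h {2, 3} ≤ h {1, 2, 3} + h {2, 3, 4} := by
    have := hs {1, 2, 3} {2, 3, 4}
    rwa [show (({1, 2, 3} : Finset (Fin 5)) ∪ {2, 3, 4}) = {1, 2, 3, 4} by decide, show (({1, 2, 3} : Finset (Fin 5)) ∩ {2, 3, 4}) = {2, 3} by decide] at this
  have t55 : h {0, 1, 2, 3, 4} + h {0, 2, 3} ≤ h {0, 1, 2, 3} + h {0, 2, 3, 4} := by
    have := hs {0, 1, 2, 3} {0, 2, 3, 4}
    rwa [show (({0, 1, 2, 3} : Finset (Fin 5)) ∪ {0, 2, 3, 4}) = {0, 1, 2, 3, 4} by decide, show (({0, 1, 2, 3} : Finset (Fin 5)) ∩ {0, 2, 3, 4}) = {0, 2, 3} by decide] at this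
  have t56 : h {2, 3} + h ∅ ≤ h {2} + h {3} := by
    have := hs {2} {3}
    rwa [show (({2} : Finset (Fin 5)) ∪ {3}) = {2, 3} by decide, show (({2} : Finset (Fin 5)) ∩ {3}) = ∅ by decide] at this
  have t57 : h {0, 2, 3} + h {0} ≤ h {0, 2} + h {0, 3} := by
    have := hs {0, 2} {0, 3}
    rwa [show (({0, 2} : Finset (Fin 5)) ∪ {0, 3}) = {0, 2, 3} by decide, show (({0, 2} : Finset (Fin 5)) ∩ {0, 3}) = {0} by decide] at this
  have t58 : h {1, 2, 3} + h {1} ≤ h {1, 2} + h {1, 3} := by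
    have := hs {1, 2} {1, 3}
    rwa [show (({1, 2} : Finset (Fin 5)) ∪ {1, 3}) = {1, 2, 3} by decide, show (({1, 2} : Finset (Fin 5)) ∩ {1, 3}) = {1} by decide] at this
  have t59 : h {2, 3, 4} + h {4} ≤ h {2, 4} + h {3, 4} := by
    have := hs {2, 4} {3, 4}
    rwa [show (({2, 4} : Finset (Fin 5)) ∪ {3, 4}) = {2, 3, 4} by decide, show (({2, 4} : Finset (Fin 5)) ∩ {3, 4}) = {4} by decide] at this
  have t60 : h {0, 1, 2, 3} + h {0, 1} ≤ h {0, 1, 2} + h {0, 1, 3} := by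
    have := hs {0, 1, 2} {0, 1, 3}
    rwa [show (({0, 1, 2} : Finset (Fin 5)) ∪ {0, 1, 3}) = {0, 1, 2, 3} by decide, show (({0, 1, 2} : Finset (Fin 5)) ∩ {0, 1, 3}) = {0, 1} by decide] at this
  have t61 : h {0, 2, 3, 4} + h {0, 4} ≤ h {0, 2, 4} + h {0, 3, 4} := by
    have := hs {0, 2, 4} {0, 3, 4}
    rwa [show (({0, 2, 4} : Finset (Fin 5)) ∪ {0, 3, 4}) = {0, 2, 3, 4} by decide, show (({0, 2, 4} : Finset (Fin 5)) ∩ {0, 3, 4}) = {0, 4} by decide] at this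
  have t62 : h {1, 2, 3, 4} + h {1, 4} ≤ h {1, 2, 4} + h {1, 3, 4} := by
    have := hs {1, 2, 4} {1, 3, 4}
    rwa [show (({1, 2, 4} : Finset (Fin 5)) ∪ {1, 3, 4}) = {1, 2, 3, 4} by decide, show (({1, 2, 4} : Finset (Fin 5)) ∩ {1, 3, 4}) = {1, 4} by decide] at this
  have t63 : h {0, 1, 2, 3, 4} + h {0, 1, 4} ≤ h {0, 1, 2, 4} + h {0, 1, 3, 4} := by
    have := hs {0, 1, 2, 4} {0, 1, 3, 4}
    rwa [show (({0, 1, 2, 4} : Finset (Fin 5)) ∪ {0, 1, 3, 4}) = {0, 1, 2, 3, 4} by decide, show (({0, 1, 2, 4} : Finset (Fin 5)) ∩ {0, 1, 3, 4}) = {0, 1, 4} by decide] at this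
  have t64 : h {2, 4} + h ∅ ≤ h {2} + h {4} := by
    have := hs {2} {4}
    rwa [show (({2} : Finset (Fin 5)) ∪ {4}) = {2, 4} by decide, show (({2} : Finset (Fin 5)) ∩ {4}) = ∅ by decide] at this
  have t65 : h {0, 2, 4} + h {0} ≤ h {0, 2} + h {0, 4} := by
    have := hs {0, 2} {0, 4}
    rwa [show (({0, 2} : Finset (Fin 5)) ∪ {0, 4}) = {0, 2, 4} by decide, show (({0, 2} : Finset (Fin 5)) ∩ {0, 4}) = {0} by decide] at this
  have t66 : h {1, 2, 4} + h {1} ≤ h {1, 2} + h {1, 4} := by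
    have := hs {1, 2} {1, 4}
    rwa [show (({1, 2} : Finset (Fin 5)) ∪ {1, 4}) = {1, 2, 4} by decide, show (({1, 2} : Finset (Fin 5)) ∩ {1, 4}) = {1} by decide] at this
  have t67 : h {2, 3, 4} + h {3} ≤ h {2, 3} + h {3, 4} := by
    have := hs {2, 3} {3, 4}
    rwa [show (({2, 3} : Finset (Fin 5)) ∪ {3, 4}) = {2, 3, 4} by decide, show (({2, 3} : Finset (Fin 5)) ∩ {3, 4}) = {3} by decide] at this
  have t68 : h {0, 1, 2, 4} + h {0, 1} ≤ h {0, 1, 2} + h {0, 1, 4} := by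
    have := hs {0, 1, 2} {0, 1, 4}
    rwa [show (({0, 1, 2} : Finset (Fin 5)) ∪ {0, 1, 4}) = {0, 1, 2, 4} by decide, show (({0, 1, 2} : Finset (Fin 5)) ∩ {0, 1, 4}) = {0, 1} by decide] at this
  have t69 : h {0, 2, 3, 4} + h {0, 3} ≤ h {0, 2, 3} + h {0, 3, 4} := by
    have := hs {0, 2, 3} {0, 3, 4}
    rwa [show (({0, 2, 3} : Finset (Fin 5)) ∪ {0, 3, 4}) = {0, 2, 3, 4} by decide, show (({0, 2, 3} : Finset (Fin 5)) ∩ {0, 3, 4}) = {0, 3} by decide] at this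
  have t70 : h {1, 2, 3, 4} + h {1, 3} ≤ h {1, 2, 3} + h {1, 3, 4} := by
    have := hs {1, 2, 3} {1, 3, 4}
    rwa [show (({1, 2, 3} : Finset (Fin 5)) ∪ {1, 3, 4}) = {1, 2, 3, 4} by decide, show (({1, 2, 3} : Finset (Fin 5)) ∩ {1, 3, 4}) = {1, 3} by decide] at this
  have t71 : h {0, 1, 2, 3, 4} + h {0, 1, 3} ≤ h {0, 1, 2, 3} + h {0, 1, 3, 4} := by
    have := hs {0, 1, 2, 3} {0, 1, 3, 4}
    rwa [show (({0, 1, 2, 3} : Finset (Fin 5)) ∪ {0, 1, 3, 4}) = {0, 1, 2, 3, 4} by decide, show (({0, 1, 2, 3} : Finset (Fin 5)) ∩ {0, 1, 3, 4}) = {0, 1, 3} by decide] at this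
  have t72 : h {3, 4} + h ∅ ≤ h {3} + h {4} := by
    have := hs {3} {4}
    rwa [show (({3} : Finset (Fin 5)) ∪ {4}) = {3, 4} by decide, show (({3} : Finset (Fin 5)) ∩ {4}) = ∅ by decide] at this
  have t73 : h {0, 3, 4} + h {0} ≤ h {0, 3} + h {0, 4} := by
    have := hs {0, 3} {0, 4}
    rwa [show (({0, 3} : Finset (Fin 5)) ∪ {0, 4}) = {0, 3, 4} by decide, show (({0, 3} : Finset (Fin 5)) ∩ {0, 4}) = {0} by decide] at this
  have t74 : h {1, 3, 4} + h {1} ≤ h {1, 3} + h {1, 4} := by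
    have := hs {1, 3} {1, 4}
    rwa [show (({1, 3} : Finset (Fin 5)) ∪ {1, 4}) = {1, 3, 4} by decide, show (({1, 3} : Finset (Fin 5)) ∩ {1, 4}) = {1} by decide] at this
  have t75 : h {2, 3, 4} + h {2} ≤ h {2, 3} + h {2, 4} := by
    have := hs {2, 3} {2, 4}
    rwa [show (({2, 3} : Finset (Fin 5)) ∪ {2, 4}) = {2, 3, 4} by decide, show (({2, 3} : Finset (Fin 5)) ∩ {2, 4}) = {2} by decide] at this
  have t76 : h {0, 1, 3, 4} + h {0, 1} ≤ h {0, 1, 3} + h {0, 1, 4} := by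
    have := hs {0, 1, 3} {0, 1, 4}
    rwa [show (({0, 1, 3} : Finset (Fin 5)) ∪ {0, 1, 4}) = {0, 1, 3, 4} by decide, show (({0, 1, 3} : Finset (Fin 5)) ∩ {0, 1, 4}) = {0, 1} by decide] at this
  have t77 : h {0, 2, 3, 4} + h {0, 2} ≤ h {0, 2, 3} + h {0, 2, 4} := by
    have := hs {0, 2, 3} {0, 2, 4}
    rwa [show (({0, 2, 3} : Finset (Fin 5)) ∪ {0, 2, 4}) = {0, 2, 3, 4} by decide, show (({0, 2, 3} : Finset (Fin 5)) ∩ {0, 2, 4}) = {0, 2} by decide] at this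
  have t78 : h {1, 2, 3, 4} + h {1, 2} ≤ h {1, 2, 3} + h {1, 2, 4} := by
    have := hs {1, 2, 3} {1, 2, 4}
    rwa [show (({1, 2, 3} : Finset (Fin 5)) ∪ {1, 2, 4}) = {1, 2, 3, 4} by decide, show (({1, 2, 3} : Finset (Fin 5)) ∩ {1, 2, 4}) = {1, 2} by decide] at this
  have t79 : h {0, 1, 2, 3, 4} + h {0, 1, 2} ≤ h {0, 1, 2, 3} + h {0, 1, 2, 4} := by
    have := hs {0, 1, 2, 3} {0, 1, 2, 4}
    rwa [show (({0, 1, 2, 3} : Finset (Fin 5)) ∪ {0, 1, 2, 4}) = {0, 1, 2, 3, 4} by decide, show (({0, 1, 2, 3} : Finset (Fin 5)) ∩ {0, 1, 2, 4}) = {0, 1, 2} by decide] at this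
  linarith
end Pool.Agent.W_MP_fd63cb_lc
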