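import Pool.Agent.W_MP_fd63cb_lc.Entropy
import Pool.Agent.W_MP_fd63cb_lc.Shannon5

/-!
The Zhang-Yeung inequality for the entropies of four partitions of a finite probability space.
-/

set_option autoImplicit false

namespace Pool.Agent.W_MP_fd63cb_lc

open Finset
open scoped Classical

variable {Ω : Type*} [Fintype Ω]

/-- The weights of the conditionally independent coupling over the partition `g`. -/
noncomputable def coup (p : Ω → ℝ) (g : Setoid Ω) (x : Ω × Ω) : ℝ :=
  if g x.1 x.2 then p x.1 * p x.2 / cls p g x.1 else 0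

lemma coup_nonneg {p : Ω → ℝ} (hp : ∀ ω, 0 ≤ p ω) (g : Setoid Ω) (x : Ω × Ω) :
    0 ≤ coup p g x := by
  unfold coup
  split_ifs
  · exact div_nonneg (mul_nonneg (hp _) (hp _)) (cls_nonneg hp _ _)
  · exact le_rfl

lemma coup_sum_right {p : Ω → ℝ} (hp : ∀ ω, 0 ≤ p ω) (g : Setoid Ω) (a : Ω) :
    ∑ b, coup p g (a, b) = p a := by
  have h : ∀ b, coup p g (a, b) = p a * (if g a b then p b else 0) / cls p g a := by
    intro b
    unfold coup
    by_cases hg : g a b <;> simp [hg]
  rw [Finset.sum_congr rfl fun b _ => h b, ← Finset.sum_div, ← Finset.mul_sum]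
  change p a * cls p g a / cls p g a = p a
  rcases (hp a).eq_or_lt with h0 | h0
  · simp [← h0]
  · have := cls_pos hp g h0
    field_simp

lemma coup_symm (p : Ω → ℝ) (g : Setoid Ω) (a b : Ω) : coup p g (a, b) = coup p g (b, a) := by
  unfold coup
  by_cases hg : g a b
  · have hg' : g b a := g.symm hg
    have h := cls_congr (p := p) hg
    simp only [hg, hg', if_true, h]
    ring
  · have hg' : ¬ g b a := fun h => hg (g.symm h)
    simp [hg, hg']

lemma coup_sum_left {p : Ω → ℝ} (hp : ∀ ω, 0 ≤ p ω) (g : Setoid Ω) (b : Ω) :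
    ∑ a, coup p g (a, b) = p b := by
  rw [Finset.sum_congr rfl fun a _ => coup_symm p g a b]
  exact coup_sum_right hp g b

lemma coup_rel {p : Ω → ℝ} {g : Setoid Ω} {x : Ω × Ω} (h : coup p g x ≠ 0) : g x.1 x.2 := by
  by_contra hg
  exact h (by simp [coup, hg])

lemma ent_coup_fst {p : Ω → ℝ} (hp : ∀ ω, 0 ≤ p ω) (g r : Setoid Ω) :
    ent (coup p g) (r.comap Prod.fst) = ent p r := by
  have hc : ∀ x : Ω × Ω, cls (coup p g) (r.comap Prod.fst) x = cls p r x.1 := by
    intro x
    unfold cls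
    rw [Fintype.sum_prod_type]
    refine Finset.sum_congr rfl fun a _ => ?_
    by_cases hr : r x.1 a
    · have : ∀ b : Ω, (r.comap Prod.fst) x (a, b) := fun b => hr
      simp only [this, if_true, hr]
      exact coup_sum_right hp g a
    · have : ∀ b : Ω, ¬ (r.comap Prod.fst) x (a, b) := fun b => hr
      simp [this, hr]
  unfold ent
  congr 1
  rw [Fintype.sum_prod_type]
  refine Finset.sum_congr rfl fun a _ => ?_
  simp only [hc]
  rw [← Finset.sum_mul, coup_sum_right hp g a]

lemma ent_coup_snd {p : Ω → ℝ} (hp : ∀ ω, 0 ≤ p ω) (g r : Setoid Ω) :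
    ent (coup p g) (r.comap Prod.snd) = ent p r := by
  have hc : ∀ x : Ω × Ω, cls (coup p g) (r.comap Prod.snd) x = cls p r x.2 := by
    intro x
    unfold cls
    rw [Fintype.sum_prod_type, Finset.sum_comm]
    refine Finset.sum_congr rfl fun b _ => ?_
    by_cases hr : r x.2 b
    · have : ∀ a : Ω, (r.comap Prod.snd) x (a, b) := fun a => hr
      simp only [this, if_true, hr]
      exact coup_sum_left hp g b
    · have : ∀ a : Ω, ¬ (r.comap Prod.snd) x (a, b) := fun a => hr
      simp [this, hr]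
  unfold ent
  congr 1
  rw [Fintype.sum_prod_type, Finset.sum_comm]
  refine Finset.sum_congr rfl fun b _ => ?_
  simp only [hc]
  rw [← Finset.sum_mul, coup_sum_left hp g b]

/-- The entropy only sees the support of the weights. -/
lemma ent_congr_support {p : Ω → ℝ} {r r' : Setoid Ω}
    (h : ∀ x y, p x ≠ 0 → p y ≠ 0 → (r x y ↔ r' x y)) : ent p r = ent p r' := by
  unfold ent
  congr 1
  refine Finset.sum_congr rfl fun x _ => ?_
  by_cases hx : p x = 0
  · simp [hx]
  · congr 2
    unfold cls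
    refine Finset.sum_congr rfl fun y _ => ?_
    by_cases hy : p y = 0
    · simp [hy]
    · simp only [h x y hx hy]

lemma ent_coup_joint {p : Ω → ℝ} (hp : ∀ ω, 0 ≤ p ω) {g r₁ r₂ : Setoid Ω}
    (h₁ : r₁ ≤ g) (h₂ : r₂ ≤ g) :
    ent (coup p g) (r₁.comap Prod.fst ⊓ r₂.comap Prod.snd) = ent p r₁ + ent p r₂ - ent p g := by
  have hc : ∀ x : Ω × Ω, g x.1 x.2 →
      cls (coup p g) (r₁.comap Prod.fst ⊓ r₂.comap Prod.snd) x
        = cls p r₁ x.1 * cls p r₂ x.2 / cls p g x.1 := by
    intro x hx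
    unfold cls
    rw [Fintype.sum_prod_type, Finset.sum_mul_sum, Finset.sum_div]
    refine Finset.sum_congr rfl fun a _ => ?_
    rw [Finset.sum_div]
    refine Finset.sum_congr rfl fun b _ => ?_
    by_cases ha : r₁ x.1 a
    · by_cases hb : r₂ x.2 b
      · have hr : (r₁.comap Prod.fst ⊓ r₂.comap Prod.snd) x (a, b) := ⟨ha, hb⟩
        rw [if_pos hr, if_pos ha, if_pos hb]
        have hab : g a b := g.trans (g.symm (h₁ ha)) (g.trans hx (h₂ hb))
        have hcl : cls p g a = cls p g x.1 := (cls_congr (h₁ ha)).symm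
        simp only [coup, hab, if_true, hcl]
        rfl
      · have hr : ¬ (r₁.comap Prod.fst ⊓ r₂.comap Prod.snd) x (a, b) := fun h => hb h.2
        rw [if_neg hr, if_neg hb]; simp
    · have hr : ¬ (r₁.comap Prod.fst ⊓ r₂.comap Prod.snd) x (a, b) := fun h => ha h.1
      rw [if_neg hr, if_neg ha]; simp
  have hlog : ∀ x : Ω × Ω,
      coup p g x * Real.log (cls (coup p g) (r₁.comap Prod.fst ⊓ r₂.comap Prod.snd) x)
        = coup p g x * Real.log (cls p r₁ x.1) + coup p g x * Real.log (cls p r₂ x.2)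
          - coup p g x * Real.log (cls p g x.1) := by
    intro x
    by_cases hx : coup p g x = 0
    · simp [hx]
    · have hg := coup_rel hx
      have hx1 : p x.1 ≠ 0 := by
        intro h0; apply hx; simp [coup, h0]
      have hx2 : p x.2 ≠ 0 := by
        intro h0; apply hx; simp [coup, h0]
      have q1 : 0 < p x.1 := lt_of_le_of_ne (hp _) (Ne.symm hx1)
      have q2 : 0 < p x.2 := lt_of_le_of_ne (hp _) (Ne.symm hx2)
      have c1 := cls_pos hp r₁ q1
      have c2 := cls_pos hp r₂ q2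
      have c3 := cls_pos hp g q1
      rw [hc x hg, Real.log_div (by positivity) (by positivity),
        Real.log_mul (by positivity) (by positivity)]
      ring
  have e1 : ∑ x : Ω × Ω, coup p g x * Real.log (cls p r₁ x.1) = -ent p r₁ := by
    rw [Fintype.sum_prod_type]
    simp only [ent, neg_neg]
    refine Finset.sum_congr rfl fun a _ => ?_
    rw [← Finset.sum_mul, coup_sum_right hp g a]
  have e2 : ∑ x : Ω × Ω, coup p g x * Real.log (cls p r₂ x.2) = -ent p r₂ := by
    rw [Fintype.sum_prod_type, Finset.sum_comm]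
    simp only [ent, neg_neg]
    refine Finset.sum_congr rfl fun b _ => ?_
    rw [← Finset.sum_mul, coup_sum_left hp g b]
  have e3 : ∑ x : Ω × Ω, coup p g x * Real.log (cls p g x.1) = -ent p g := by
    rw [Fintype.sum_prod_type]
    simp only [ent, neg_neg]
    refine Finset.sum_congr rfl fun a _ => ?_
    rw [← Finset.sum_mul, coup_sum_right hp g a]
  have : ent (coup p g) (r₁.comap Prod.fst ⊓ r₂.comap Prod.snd)
      = -(∑ x : Ω × Ω, coup p g x * Real.log (cls p r₁ x.1)
        + ∑ x : Ω × Ω, coup p g x * Real.log (cls p r₂ x.2)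
        - ∑ x : Ω × Ω, coup p g x * Real.log (cls p g x.1)) := by
    rw [← Finset.sum_add_distrib, ← Finset.sum_sub_distrib]
    unfold ent
    congr 1
    exact Finset.sum_congr rfl fun x _ => hlog x
  rw [this, e1, e2, e3]
  ring

/-- The Zhang-Yeung inequality for four partitions `A, B, C, D` of a finite probability space. -/
theorem zhang_yeung {p : Ω → ℝ} (hp : ∀ ω, 0 ≤ p ω) (hsum : ∑ ω, p ω = 1)
    (A B C D : Setoid Ω) :
    ent p C + ent p D - ent p (C ⊓ D) ≤
      2 * (ent p (A ⊓ C) + ent p (A ⊓ D) - ent p (A ⊓ C ⊓ D) - ent p A)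
      + (ent p (B ⊓ C) + ent p (B ⊓ D) - ent p (B ⊓ C ⊓ D) - ent p B)
      + (ent p A + ent p B - ent p (A ⊓ B))
      + (ent p (C ⊓ D) + ent p (A ⊓ D) - ent p (A ⊓ C ⊓ D) - ent p D)
      + (ent p (C ⊓ D) + ent p (A ⊓ C) - ent p (A ⊓ C ⊓ D) - ent p C) := by
  set g : Setoid Ω := C ⊓ D with hg
  set q : Ω × Ω → ℝ := coup p g with hq
  have hq0 : ∀ x, 0 ≤ q x := coup_nonneg hp g
  let R : Fin 5 → Setoid (Ω × Ω) := ![A.comap Prod.fst, B.comap Prod.fst, C.comap Prod.fst,
    D.comap Prod.fst, A.comap Prod.snd]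
  let h : Finset (Fin 5) → ℝ := fun S => ent q (S.inf R)
  have hsub : ∀ S T, h (S ∪ T) + h (S ∩ T) ≤ h S + h T := by
    intro S T
    show ent q ((S ∪ T).inf R) + ent q ((S ∩ T).inf R) ≤ ent q (S.inf R) + ent q (T.inf R)
    rw [Finset.inf_union]
    exact ent_submod hq0 (Finset.inf_mono Finset.inter_subset_left)
      (Finset.inf_mono Finset.inter_subset_right)
  have hq1 : ∑ x, q x = 1 := by
    rw [Fintype.sum_prod_type, ← hsum]
    exact Finset.sum_congr rfl fun a _ => coup_sum_right hp g a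
  have h0 : h ∅ = 0 := by
    show ent q ((∅ : Finset (Fin 5)).inf R) = 0
    rw [Finset.inf_empty]
    unfold ent cls
    have : ∀ x y : Ω × Ω, (⊤ : Setoid (Ω × Ω)) x y := fun x y => trivial
    simp only [this, if_true, hq1, Real.log_one, mul_zero, Finset.sum_const_zero, neg_zero]
  have main := shannon5 h hsub h0
  have fst1 : ∀ r : Setoid Ω, ent q (r.comap Prod.fst) = ent p r := ent_coup_fst hp g
  have fst2 : ∀ r s : Setoid Ω, r.comap (Prod.fst : Ω × Ω → Ω) ⊓ s.comap Prod.fst
      = (r ⊓ s).comap Prod.fst := fun r s => rfl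
  have snd2 : ∀ r s : Setoid Ω, r.comap (Prod.snd : Ω × Ω → Ω) ⊓ s.comap Prod.snd
      = (r ⊓ s).comap Prod.snd := fun r s => rfl
  have v0 : h {0} = ent p A := by
    show ent q (({0} : Finset (Fin 5)).inf R) = _
    rw [Finset.inf_singleton]; exact fst1 A
  have v1 : h {1} = ent p B := by
    show ent q (({1} : Finset (Fin 5)).inf R) = _
    rw [Finset.inf_singleton]; exact fst1 B
  have v2 : h {2} = ent p C := by
    show ent q (({2} : Finset (Fin 5)).inf R) = _
    rw [Finset.inf_singleton]; exact fst1 C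
  have v3 : h {3} = ent p D := by
    show ent q (({3} : Finset (Fin 5)).inf R) = _
    rw [Finset.inf_singleton]; exact fst1 D
  have v4 : h {4} = ent p A := by
    show ent q (({4} : Finset (Fin 5)).inf R) = _
    rw [Finset.inf_singleton]; exact ent_coup_snd hp g A
  have v23 : h {2, 3} = ent p g := by
    show ent q (({2, 3} : Finset (Fin 5)).inf R) = _
    rw [Finset.inf_insert, Finset.inf_singleton]; exact fst1 (C ⊓ D)
  have v02 : h {0, 2} = ent p (A ⊓ C) := by
    show ent q (({0, 2} : Finset (Fin 5)).inf R) = _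
    rw [Finset.inf_insert, Finset.inf_singleton]; exact fst1 (A ⊓ C)
  have v03 : h {0, 3} = ent p (A ⊓ D) := by
    show ent q (({0, 3} : Finset (Fin 5)).inf R) = _
    rw [Finset.inf_insert, Finset.inf_singleton]; exact fst1 (A ⊓ D)
  have v023 : h {0, 2, 3} = ent p (A ⊓ C ⊓ D) := by
    show ent q (({0, 2, 3} : Finset (Fin 5)).inf R) = _
    rw [Finset.inf_insert, Finset.inf_insert, Finset.inf_singleton, inf_assoc]
    exact fst1 (A ⊓ (C ⊓ D))
  have v12 : h {1, 2} = ent p (B ⊓ C) := by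
    show ent q (({1, 2} : Finset (Fin 5)).inf R) = _
    rw [Finset.inf_insert, Finset.inf_singleton]; exact fst1 (B ⊓ C)
  have v13 : h {1, 3} = ent p (B ⊓ D) := by
    show ent q (({1, 3} : Finset (Fin 5)).inf R) = _
    rw [Finset.inf_insert, Finset.inf_singleton]; exact fst1 (B ⊓ D)
  have v123 : h {1, 2, 3} = ent p (B ⊓ C ⊓ D) := by
    show ent q (({1, 2, 3} : Finset (Fin 5)).inf R) = _
    rw [Finset.inf_insert, Finset.inf_insert, Finset.inf_singleton, inf_assoc]
    exact fst1 (B ⊓ (C ⊓ D))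
  have v01 : h {0, 1} = ent p (A ⊓ B) := by
    show ent q (({0, 1} : Finset (Fin 5)).inf R) = _
    rw [Finset.inf_insert, Finset.inf_singleton]; exact fst1 (A ⊓ B)
  have v0123 : h {0, 1, 2, 3} = ent p (A ⊓ (B ⊓ g)) := by
    show ent q (({0, 1, 2, 3} : Finset (Fin 5)).inf R) = _
    rw [Finset.inf_insert, Finset.inf_insert, Finset.inf_insert, Finset.inf_singleton]
    exact fst1 (A ⊓ (B ⊓ (C ⊓ D)))
  have v24 : h {2, 4} = ent p (A ⊓ C) := by
    show ent q (({2, 4} : Finset (Fin 5)).inf R) = _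
    rw [Finset.inf_insert, Finset.inf_singleton]
    rw [← ent_coup_snd hp g (A ⊓ C)]
    refine ent_congr_support fun x y hx hy => ?_
    have gx := coup_rel hx
    have gy := coup_rel hy
    constructor
    · rintro ⟨hC, hA⟩
      exact ⟨hA, C.trans (C.symm gx.1) (C.trans hC gy.1)⟩
    · rintro ⟨hA, hC⟩
      exact ⟨C.trans gx.1 (C.trans hC (C.symm gy.1)), hA⟩
  have v34 : h {3, 4} = ent p (A ⊓ D) := by
    show ent q (({3, 4} : Finset (Fin 5)).inf R) = _
    rw [Finset.inf_insert, Finset.inf_singleton]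
    rw [← ent_coup_snd hp g (A ⊓ D)]
    refine ent_congr_support fun x y hx hy => ?_
    have gx := coup_rel hx
    have gy := coup_rel hy
    constructor
    · rintro ⟨hD, hA⟩
      exact ⟨hA, D.trans (D.symm gx.2) (D.trans hD gy.2)⟩
    · rintro ⟨hA, hD⟩
      exact ⟨D.trans gx.2 (D.trans hD (D.symm gy.2)), hA⟩
  have v234 : h {2, 3, 4} = ent p (A ⊓ C ⊓ D) := by
    show ent q (({2, 3, 4} : Finset (Fin 5)).inf R) = _
    rw [Finset.inf_insert, Finset.inf_insert, Finset.inf_singleton]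
    rw [← ent_coup_snd hp g (A ⊓ C ⊓ D)]
    refine ent_congr_support fun x y hx hy => ?_
    have gx := coup_rel hx
    have gy := coup_rel hy
    constructor
    · rintro ⟨hC, hD, hA⟩
      exact ⟨⟨hA, C.trans (C.symm gx.1) (C.trans hC gy.1)⟩,
        D.trans (D.symm gx.2) (D.trans hD gy.2)⟩
    · rintro ⟨⟨hA, hC⟩, hD⟩
      exact ⟨C.trans gx.1 (C.trans hC (C.symm gy.1)),
        D.trans gx.2 (D.trans hD (D.symm gy.2)), hA⟩
  have v01234 : h {0, 1, 2, 3, 4} = ent p (A ⊓ (B ⊓ g)) + ent p (A ⊓ C ⊓ D) - ent p g := by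
    show ent q (({0, 1, 2, 3, 4} : Finset (Fin 5)).inf R) = _
    rw [Finset.inf_insert, Finset.inf_insert, Finset.inf_insert, Finset.inf_insert,
      Finset.inf_singleton]
    rw [← ent_coup_joint hp (g := g) (r₁ := A ⊓ (B ⊓ g)) (r₂ := A ⊓ C ⊓ D)
      (fun {x y} hxy => hxy.2.2) (fun {x y} hxy => ⟨hxy.1.2, hxy.2⟩)]
    refine ent_congr_support fun x y hx hy => ?_
    have gx := coup_rel hx
    have gy := coup_rel hy
    constructor
    · rintro ⟨hA, hB, hC, hD, hA'⟩
      exact ⟨⟨hA, hB, hC, hD⟩, ⟨hA', C.trans (C.symm gx.1) (C.trans hC gy.1)⟩,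
        D.trans (D.symm gx.2) (D.trans hD gy.2)⟩
    · rintro ⟨⟨hA, hB, hC, hD⟩, ⟨hA', _⟩, _⟩
      exact ⟨hA, hB, hC, hD, hA'⟩
  rw [v0, v1, v2, v3, v4, v23, v02, v03, v023, v12, v13, v123, v01, v0123, v24, v34, v234,
    v01234] at main
  linarith

end Pool.Agent.W_MP_fd63cb_lc
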