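import Pool.Agent.W_MP_fd63cb_lc.CompReal
import Pool.Agent.W_MP_fd63cb_lc.ZY

/-!
The Zhang-Yeung inequality for prefix complexity.
-/

set_option autoImplicit false

namespace Pool.Agent.W_MP_fd63cb_lc

open Finset
open scoped Classical

abbrev Str := List Bool

/-- Decoding of quadruples of strings. -/
def quad (z : ℕ) : Str × Str × Str × Str :=
  ((Encodable.decode z : Option (Str × Str × Str × Str))).getD ([], [], [], [])

lemma quad_encode (q : Str × Str × Str × Str) : quad (Encodable.encode q) = q := by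
  simp [quad]

lemma computable_quad : Computable quad :=
  Computable.option_getD (f := fun z : ℕ => (Encodable.decode z : Option (Str × Str × Str × Str)))
    (g := fun _ => ([], [], [], [])) Computable.decode (Computable.const _)

def q1 (z : ℕ) : Str := (quad z).1
def q2 (z : ℕ) : Str := (quad z).2.1
def q3 (z : ℕ) : Str := (quad z).2.2.1
def q4 (z : ℕ) : Str := (quad z).2.2.2

lemma computable_q1 : Computable q1 := Computable.fst.comp computable_quad
lemma computable_q2 : Computable q2 := Computable.fst.comp (Computable.snd.comp computable_quad)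
lemma computable_q3 : Computable q3 :=
  Computable.fst.comp (Computable.snd.comp (Computable.snd.comp computable_quad))
lemma computable_q4 : Computable q4 :=
  Computable.snd.comp (Computable.snd.comp (Computable.snd.comp computable_quad))

/-- The eleven subtuples occurring in the inequality. -/
def sub (i : Fin 11) (z : ℕ) : List Str :=
  match i with
  | 0 => [q1 z]
  | 1 => [q3 z]
  | 2 => [q4 z]
  | 3 => [q1 z, q2 z]
  | 4 => [q1 z, q3 z]
  | 5 => [q1 z, q4 z]
  | 6 => [q2 z, q3 z]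
  | 7 => [q2 z, q4 z]
  | 8 => [q3 z, q4 z]
  | 9 => [q1 z, q3 z, q4 z]
  | 10 => [q2 z, q3 z, q4 z]

def pos (i : Fin 11) : ℕ :=
  match i with
  | 4 => 3
  | 5 => 3
  | 6 => 1
  | 7 => 1
  | 8 => 3
  | _ => 0

def neg (i : Fin 11) : ℕ :=
  match i with
  | 0 => 1
  | 1 => 2
  | 2 => 2
  | 3 => 1
  | 9 => 4
  | 10 => 1
  | _ => 0

lemma computable_one {f : ℕ → Str} (hf : Computable f) : Computable fun z => [f z] :=
  Computable.list_cons.comp hf (Computable.const [])

lemma computable_cons {f : ℕ → Str} {g : ℕ → List Str} (hf : Computable f) (hg : Computable g) :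
    Computable fun z => f z :: g z :=
  Computable.list_cons.comp hf hg

lemma computable_sub (i : Fin 11) : Computable (sub i) := by
  have c1 := computable_q1
  have c2 := computable_q2
  have c3 := computable_q3
  have c4 := computable_q4
  fin_cases i
  · exact computable_one c1
  · exact computable_one c3
  · exact computable_one c4
  · exact computable_cons c1 (computable_one c2)
  · exact computable_cons c1 (computable_one c3)
  · exact computable_cons c1 (computable_one c4)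
  · exact computable_cons c2 (computable_one c3)
  · exact computable_cons c2 (computable_one c4)
  · exact computable_cons c3 (computable_one c4)
  · exact computable_cons c1 (computable_cons c3 (computable_one c4))
  · exact computable_cons c2 (computable_cons c3 (computable_one c4))

theorem zy_kp (K : ℕ → ℕ)
    (hK1 : ∃ f : ℕ → ℕ → ℕ, Computable₂ f ∧ ∀ x, (∀ t, K x ≤ f x t) ∧ ∃ t, f x t = K x)
    (hK2 : Summable (fun x : ℕ => ((1:ℝ)/2) ^ K x)) (hK3 : (∑' x : ℕ, ((1:ℝ)/2) ^ K x) ≤ 1)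
    (hK4 : ∀ K' : ℕ → ℕ,
      ((∃ f : ℕ → ℕ → ℕ, Computable₂ f ∧ ∀ x, (∀ t, K' x ≤ f x t) ∧ ∃ t, f x t = K' x) ∧
        Summable (fun x : ℕ => ((1:ℝ)/2) ^ K' x) ∧ (∑' x : ℕ, ((1:ℝ)/2) ^ K' x) ≤ 1) →
      ∃ c : ℕ, ∀ x, K x ≤ K' x + c)
    (code : List Str → ℕ) (hcode : Computable code) (hinj : Function.Injective code) :
    ∃ c : ℕ, ∀ x₁ x₂ x₃ x₄ : Str,
      2 * ((K (code [x₃]) : ℤ) + K (code [x₄]) - K (code [x₃, x₄])) ≤
        ((K (code [x₁]) : ℤ) + K (code [x₂]) - K (code [x₁, x₂]))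
        + ((K (code [x₁]) : ℤ) + K (code [x₃, x₄]) - K (code [x₁, x₃, x₄]))
        + 3 * ((K (code [x₁, x₃]) : ℤ) + K (code [x₁, x₄]) - K (code [x₁, x₃, x₄])
            - K (code [x₁]))
        + ((K (code [x₂, x₃]) : ℤ) + K (code [x₂, x₄]) - K (code [x₂, x₃, x₄])
            - K (code [x₂]))
        + c := by
  have hvalid : ∀ (n : ℕ) (p : Fin n → ℝ) (x : Fin n → ℕ), (∀ ω, 0 ≤ p ω) → ∑ ω, p ω = 1 →
      0 ≤ ∑ i : Fin 11, ((pos i : ℝ) - neg i) *
        ent p (Setoid.ker fun ω => code (sub i (x ω))) := by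
    intro n p x hp hsum
    set A := Setoid.ker fun ω => q1 (x ω) with hA
    set B := Setoid.ker fun ω => q2 (x ω) with hB
    set C := Setoid.ker fun ω => q3 (x ω) with hC
    set D := Setoid.ker fun ω => q4 (x ω) with hD
    have hzy := zhang_yeung hp hsum A B C D
    have k0 : (Setoid.ker fun ω => code (sub 0 (x ω))) = A := by
      ext a b; simp only [Setoid.ker_def, hinj.eq_iff, sub, List.cons.injEq, and_true]
    have k1 : (Setoid.ker fun ω => code (sub 1 (x ω))) = C := by
      ext a b; simp only [Setoid.ker_def, hinj.eq_iff, sub, List.cons.injEq, and_true]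
    have k2 : (Setoid.ker fun ω => code (sub 2 (x ω))) = D := by
      ext a b; simp only [Setoid.ker_def, hinj.eq_iff, sub, List.cons.injEq, and_true]
    have k3 : (Setoid.ker fun ω => code (sub 3 (x ω))) = A ⊓ B := by
      ext a b; simp only [Setoid.ker_def, hinj.eq_iff, sub, List.cons.injEq, and_true]; exact Iff.rfl
    have k4 : (Setoid.ker fun ω => code (sub 4 (x ω))) = A ⊓ C := by
      ext a b; simp only [Setoid.ker_def, hinj.eq_iff, sub, List.cons.injEq, and_true]; exact Iff.rfl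
    have k5 : (Setoid.ker fun ω => code (sub 5 (x ω))) = A ⊓ D := by
      ext a b; simp only [Setoid.ker_def, hinj.eq_iff, sub, List.cons.injEq, and_true]; exact Iff.rfl
    have k6 : (Setoid.ker fun ω => code (sub 6 (x ω))) = B ⊓ C := by
      ext a b; simp only [Setoid.ker_def, hinj.eq_iff, sub, List.cons.injEq, and_true]; exact Iff.rfl
    have k7 : (Setoid.ker fun ω => code (sub 7 (x ω))) = B ⊓ D := by
      ext a b; simp only [Setoid.ker_def, hinj.eq_iff, sub, List.cons.injEq, and_true]; exact Iff.rfl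
    have k8 : (Setoid.ker fun ω => code (sub 8 (x ω))) = C ⊓ D := by
      ext a b; simp only [Setoid.ker_def, hinj.eq_iff, sub, List.cons.injEq, and_true]; exact Iff.rfl
    have k9 : (Setoid.ker fun ω => code (sub 9 (x ω))) = A ⊓ C ⊓ D := by
      ext a b; simp only [Setoid.ker_def, hinj.eq_iff, sub, List.cons.injEq, and_true]; exact and_assoc.symm
    have k10 : (Setoid.ker fun ω => code (sub 10 (x ω))) = B ⊓ C ⊓ D := by
      ext a b; simp only [Setoid.ker_def, hinj.eq_iff, sub, List.cons.injEq, and_true]; exact and_assoc.symm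
    have e : ∑ i : Fin 11, ((pos i : ℝ) - neg i) *
        ent p (Setoid.ker fun ω => code (sub i (x ω))) =
        (-1) * ent p A + (-2) * ent p C + (-2) * ent p D + (-1) * ent p (A ⊓ B)
        + 3 * ent p (A ⊓ C) + 3 * ent p (A ⊓ D) + ent p (B ⊓ C) + ent p (B ⊓ D)
        + 3 * ent p (C ⊓ D) + (-4) * ent p (A ⊓ C ⊓ D) + (-1) * ent p (B ⊓ C ⊓ D) := by
      rw [Fin.sum_univ_succ, Fin.sum_univ_succ, Fin.sum_univ_succ, Fin.sum_univ_succ,
        Fin.sum_univ_succ, Fin.sum_univ_succ, Fin.sum_univ_succ, Fin.sum_univ_succ,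
        Fin.sum_univ_succ, Fin.sum_univ_succ, Fin.sum_univ_succ, Fin.sum_univ_zero]
      change ((0 : ℕ) - (1 : ℕ) : ℝ) * ent p (Setoid.ker fun ω => code (sub 0 (x ω)))
        + (((0 : ℕ) - (2 : ℕ) : ℝ) * ent p (Setoid.ker fun ω => code (sub 1 (x ω)))
        + (((0 : ℕ) - (2 : ℕ) : ℝ) * ent p (Setoid.ker fun ω => code (sub 2 (x ω)))
        + (((0 : ℕ) - (1 : ℕ) : ℝ) * ent p (Setoid.ker fun ω => code (sub 3 (x ω)))
        + (((3 : ℕ) - (0 : ℕ) : ℝ) * ent p (Setoid.ker fun ω => code (sub 4 (x ω)))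
        + (((3 : ℕ) - (0 : ℕ) : ℝ) * ent p (Setoid.ker fun ω => code (sub 5 (x ω)))
        + (((1 : ℕ) - (0 : ℕ) : ℝ) * ent p (Setoid.ker fun ω => code (sub 6 (x ω)))
        + (((1 : ℕ) - (0 : ℕ) : ℝ) * ent p (Setoid.ker fun ω => code (sub 7 (x ω)))
        + (((3 : ℕ) - (0 : ℕ) : ℝ) * ent p (Setoid.ker fun ω => code (sub 8 (x ω)))
        + (((0 : ℕ) - (4 : ℕ) : ℝ) * ent p (Setoid.ker fun ω => code (sub 9 (x ω)))
        + (((0 : ℕ) - (1 : ℕ) : ℝ) * ent p (Setoid.ker fun ω => code (sub 10 (x ω)))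
        + 0)))))))))) = _
      rw [k0, k1, k2, k3, k4, k5, k6, k7, k8, k9, k10]
      push_cast
      ring
    rw [e]
    linarith
  obtain ⟨C, hC⟩ := abstract_computable K hK1 hK2 hK3 hK4 (fun i z => code (sub i z))
    (fun i => hcode.comp (computable_sub i)) (fun i => (pos i : ℝ) - neg i)
    (fun i k => pos i * 2 ^ k) (fun i k => neg i * 2 ^ k)
    (fun i => (Primrec.nat_mul.comp (Primrec.const _)
      (primrec_pow.comp (Primrec.const 2) Primrec.id)).to_comp)
    (fun i => (Primrec.nat_mul.comp (Primrec.const _)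
      (primrec_pow.comp (Primrec.const 2) Primrec.id)).to_comp)
    (fun i k => by
      have h2 : (2 : ℝ) ^ k ≠ 0 := by positivity
      have : ((pos i : ℝ) - neg i) - (((pos i * 2 ^ k : ℕ) : ℝ) - ((neg i * 2 ^ k : ℕ) : ℝ)) / 2 ^ k
          = 0 := by
        push_cast
        field_simp
        ring
      rw [this, abs_zero]
      positivity) hvalid
  obtain ⟨c, hc⟩ := exists_nat_ge C
  refine ⟨c, fun x₁ x₂ x₃ x₄ => ?_⟩
  have h := hC (Encodable.encode ((x₁, x₂, x₃, x₄) : Str × Str × Str × Str))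
  set z := Encodable.encode ((x₁, x₂, x₃, x₄) : Str × Str × Str × Str) with hz
  have hq : quad z = (x₁, x₂, x₃, x₄) := quad_encode _
  have e1 : q1 z = x₁ := by simp [q1, hq]
  have e2 : q2 z = x₂ := by simp [q2, hq]
  have e3 : q3 z = x₃ := by simp [q3, hq]
  have e4 : q4 z = x₄ := by simp [q4, hq]
  rw [Fin.sum_univ_succ, Fin.sum_univ_succ, Fin.sum_univ_succ, Fin.sum_univ_succ,
        Fin.sum_univ_succ, Fin.sum_univ_succ, Fin.sum_univ_succ, Fin.sum_univ_succ,
        Fin.sum_univ_succ, Fin.sum_univ_succ, Fin.sum_univ_succ, Fin.sum_univ_zero] at h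
  change -C ≤ ((0 : ℕ) - (1 : ℕ) : ℝ) * (K (code [q1 z]))
        + (((0 : ℕ) - (2 : ℕ) : ℝ) * (K (code [q3 z]))
        + (((0 : ℕ) - (2 : ℕ) : ℝ) * (K (code [q4 z]))
        + (((0 : ℕ) - (1 : ℕ) : ℝ) * (K (code [q1 z, q2 z]))
        + (((3 : ℕ) - (0 : ℕ) : ℝ) * (K (code [q1 z, q3 z]))
        + (((3 : ℕ) - (0 : ℕ) : ℝ) * (K (code [q1 z, q4 z]))
        + (((1 : ℕ) - (0 : ℕ) : ℝ) * (K (code [q2 z, q3 z]))
        + (((1 : ℕ) - (0 : ℕ) : ℝ) * (K (code [q2 z, q4 z]))
        + (((3 : ℕ) - (0 : ℕ) : ℝ) * (K (code [q3 z, q4 z]))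
        + (((0 : ℕ) - (4 : ℕ) : ℝ) * (K (code [q1 z, q3 z, q4 z]))
        + (((0 : ℕ) - (1 : ℕ) : ℝ) * (K (code [q2 z, q3 z, q4 z]))
        + 0)))))))))) at h
  rw [e1, e2, e3, e4] at h
  push_cast at h
  have h' : (2 * ((K (code [x₃]) : ℝ) + K (code [x₄]) - K (code [x₃, x₄]))) ≤
        ((K (code [x₁]) : ℝ) + K (code [x₂]) - K (code [x₁, x₂]))
        + ((K (code [x₁]) : ℝ) + K (code [x₃, x₄]) - K (code [x₁, x₃, x₄]))
        + 3 * ((K (code [x₁, x₃]) : ℝ) + K (code [x₁, x₄]) - K (code [x₁, x₃, x₄])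
            - K (code [x₁]))
        + ((K (code [x₂, x₃]) : ℝ) + K (code [x₂, x₄]) - K (code [x₂, x₃, x₄])
            - K (code [x₂]))
        + c := by
    linarith
  exact_mod_cast h'

end Pool.Agent.W_MP_fd63cb_lc
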